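import Pool.Statements.S00212
import Pool.Agent.Lib.MP_63dc40_ag.Alg
import Pool.Agent.Lib.MP_63dc40_ag.Bounds

set_option autoImplicit false
open MvPolynomial
open Pool Pool.MP_63dc40_ag

namespace Pool.Agent.S00212

/-- The negation of the preceding statement: Take a degree-d codimension-one foliation of ℙⁿ (n≥2), given by an integrable form whose singular set has codimension ≥2. If its non-Kupka set has codimension ≥3, the local ring of the foliation scheme at it is regular, i.e. Krull dimension equals tangent-space dimension. -/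
theorem result :
    ¬ (∀ (n d : ℕ), 2 ≤ n →
    ∀ (G : Fin (n+1) → MvPolynomial (Fin (n+1)) (MvPolynomial (Fin (n+1) × Sym (Fin (n+1)) (d+1)) ℂ)),
    (∀ i, G i = ∑ s : Sym (Fin (n+1)) (d+1),
        MvPolynomial.C (MvPolynomial.X (i, s)) *
          ((s : Multiset (Fin (n+1))).map (fun j => MvPolynomial.X j)).prod) →
    ∀ (I : Ideal (MvPolynomial (Fin (n+1) × Sym (Fin (n+1)) (d+1)) ℂ)),
    I = Ideal.span {r | (∃ m, r = MvPolynomial.coeff m (∑ i, MvPolynomial.X i * G i)) ∨
        (∃ i j k m, r = MvPolynomial.coeff m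
          (G i * (pderiv j (G k) - pderiv k (G j)) + G j * (pderiv k (G i) - pderiv i (G k))
            + G k * (pderiv i (G j) - pderiv j (G i))))} →
    ∀ (c : Fin (n+1) × Sym (Fin (n+1)) (d+1) → ℂ), c ≠ 0 →
    I ≤ RingHom.ker (MvPolynomial.eval c) →
    ringKrullDim (MvPolynomial (Fin (n+1)) ℂ ⧸
        Ideal.span (Set.range (fun i => MvPolynomial.map (MvPolynomial.eval c) (G i))))
      ≤ ((n - 1 : ℕ) : WithBot ℕ∞) →
    ringKrullDim (MvPolynomial (Fin (n+1)) ℂ ⧸
        Ideal.span (Set.range (fun i => MvPolynomial.map (MvPolynomial.eval c) (G i)) ∪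
          Set.range (fun p : Fin (n+1) × Fin (n+1) =>
            MvPolynomial.map (MvPolynomial.eval c) (pderiv p.1 (G p.2) - pderiv p.2 (G p.1)))))
      ≤ ((n - 2 : ℕ) : WithBot ℕ∞) →
    ∀ (P : Ideal (MvPolynomial (Fin (n+1) × Sym (Fin (n+1)) (d+1)) ℂ ⧸ I)) [P.IsPrime],
    P = Ideal.map (Ideal.Quotient.mk I) (RingHom.ker (MvPolynomial.eval c)) →
    ringKrullDim (Localization.AtPrime P) =
      ((Module.finrank (IsLocalRing.ResidueField (Localization.AtPrime P))
        (IsLocalRing.CotangentSpace (Localization.AtPrime P)) : ℕ) : WithBot ℕ∞)) := by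
  intro H
  classical
  open Pool.Agent.Lib.MP_63dc40_ag in
  -- the universal form, the ideal of the scheme of foliations, and the point
  let idx := Fin (3+1) × Sym (Fin (3+1)) (7+1)
  let G : Fin (3+1) → MvPolynomial (Fin (3+1)) (MvPolynomial idx ℂ) := fun i =>
    ∑ s : Sym (Fin (3+1)) (7+1), MvPolynomial.C (MvPolynomial.X (i, s)) *
      ((s : Multiset (Fin (3+1))).map (fun j => MvPolynomial.X j)).prod
  let I : Ideal (MvPolynomial idx ℂ) :=
    Ideal.span {r | (∃ m, r = MvPolynomial.coeff m (∑ i, MvPolynomial.X i * G i)) ∨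
        (∃ i j k m, r = MvPolynomial.coeff m
          (G i * (pderiv j (G k) - pderiv k (G j)) + G j * (pderiv k (G i) - pderiv i (G k))
            + G k * (pderiv i (G j) - pderiv j (G i))))}
  let c : idx → ℂ := fun p => coeff (Multiset.toFinsupp (p.2 : Multiset (Fin 4))) (om ℂ p.1)
  let v : idx → ℂ := fun p => coeff (Multiset.toFinsupp (p.2 : Multiset (Fin 4))) (et ℂ p.1)
  have hmapG : ∀ {B : Type} [CommRing B] (f : MvPolynomial idx ℂ →+* B) (i : Fin 4),
      MvPolynomial.map f (G i) = ∑ s : Sym (Fin 4) 8, C (f (X (i, s))) *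
        ((s : Multiset (Fin 4)).map (fun j => (X j : MvPolynomial (Fin 4) B))).prod := by
    intro B _ f i
    simp only [G, map_sum, map_mul, map_C, map_multiset_prod, Multiset.map_map,
      Function.comp_def, map_X]
  have hmapTh : ∀ {B : Type} [CommRing B] (f : MvPolynomial idx ℂ →+* B) (i j k : Fin 4),
      MvPolynomial.map f (G i * (pderiv j (G k) - pderiv k (G j))
          + G j * (pderiv k (G i) - pderiv i (G k)) + G k * (pderiv i (G j) - pderiv j (G i))) =
        Th (fun i => MvPolynomial.map f (G i)) (fun i => MvPolynomial.map f (G i)) i j k := by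
    intro B _ f i j k
    simp only [Th, map_add, map_mul, map_sub, pderiv_map]
  -- second order jets of points
  have hjet : ∀ {B : Type} [CommRing B] [Algebra ℂ B] (f : MvPolynomial idx ℂ →+* B) (t : B)
      (z : idx → B),
      (∀ p, f (X p) = algebraMap ℂ B (c p) + algebraMap ℂ B (v p) * t + z p * t ^ 2) →
      ∀ i, MvPolynomial.map f (G i) = fo t i + C (t ^ 2) * ∑ s : Sym (Fin 4) 8, C (z (i, s)) *
        ((s : Multiset (Fin 4)).map (fun j => (X j : MvPolynomial (Fin 4) B))).prod := by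
    intro B _ _ f t z hf i
    rw [hmapG, fo, ← sum_sym_eq (om B i) (om_hom i), ← sum_sym_eq (et B i) (et_hom i),
      Finset.mul_sum, Finset.mul_sum, ← Finset.sum_add_distrib, ← Finset.sum_add_distrib]
    refine Finset.sum_congr rfl fun s _ => ?_
    rw [hf, ← map_om (algebraMap ℂ B), ← map_et (algebraMap ℂ B), coeff_map, coeff_map]
    simp only [c, v, map_add, map_mul]
    ring
  have hker : ∀ {B : Type} [CommRing B] [Algebra ℂ B] (f : MvPolynomial idx ℂ →+* B) (t : B),
      t ^ 2 = 0 → (∀ p, f (X p) = algebraMap ℂ B (c p) + algebraMap ℂ B (v p) * t) →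
      I ≤ RingHom.ker f := by
    intro B _ _ f t ht hf
    have hG : ∀ i, MvPolynomial.map f (G i) = fo t i := by
      intro i
      rw [hjet f t 0 (fun p => by simp [hf]) i, ht, map_zero, zero_mul, add_zero]
    refine Ideal.span_le.2 ?_
    rintro r (⟨m, rfl⟩ | ⟨i, j, k, m, rfl⟩)
    · change f _ = 0
      rw [← coeff_map]
      simp only [map_sum, map_mul, map_X, hG]
      rw [euler_fo, coeff_zero]
    · change f _ = 0
      rw [← coeff_map, hmapTh]
      simp only [hG]
      rw [Th_fo t ht, coeff_zero]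
  have hGc : ∀ i, MvPolynomial.map (MvPolynomial.eval c) (G i) = om ℂ i := by
    intro i
    rw [hjet (MvPolynomial.eval c) 0 0 (fun p => by simp) i]
    simp [fo]
  have hIc : I ≤ RingHom.ker (MvPolynomial.eval c) :=
    hker (MvPolynomial.eval c) 0 (by simp) (fun p => by simp)
  have hc0 : c ≠ 0 := by
    intro h
    have h3 := hGc 3
    rw [hmapG] at h3
    simp only [eval_X, h, Pi.zero_apply, map_zero, zero_mul, Finset.sum_const_zero] at h3
    have := congrArg (MvPolynomial.eval (fun _ => (1 : ℂ))) h3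
    simp [om] at this
    norm_num at this
  -- the tangent vector, as a point with values in the dual numbers
  let φ₀ : MvPolynomial idx ℂ →ₐ[ℂ] DualNumber ℂ :=
    aeval fun p => algebraMap ℂ _ (c p) + algebraMap ℂ _ (v p) * DualNumber.eps
  have hIφ : I ≤ RingHom.ker φ₀.toRingHom :=
    hker φ₀.toRingHom DualNumber.eps (by rw [pow_two]; exact DualNumber.eps_mul_eps)
      (fun p => by simp [φ₀])
  have hfst : ∀ a, (φ₀ a).fst = MvPolynomial.eval c a := by
    intro a
    have : (TrivSqZeroExt.fstHom ℂ ℂ ℂ).comp φ₀ = aeval c := by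
      ext p
      simp [φ₀, TrivSqZeroExt.algebraMap_eq_inl]
    exact (congrArg (fun g : MvPolynomial idx ℂ →ₐ[ℂ] ℂ => g a) this)
  let φ₁ : (MvPolynomial idx ℂ ⧸ I) →ₐ[ℂ] DualNumber ℂ :=
    Ideal.Quotient.liftₐ I φ₀ (fun a ha => hIφ ha)
  let P : Ideal (MvPolynomial idx ℂ ⧸ I) :=
    Ideal.map (Ideal.Quotient.mk I) (RingHom.ker (MvPolynomial.eval c))
  have hPmem : ∀ a, Ideal.Quotient.mk I a ∈ P ↔ MvPolynomial.eval c a = 0 := by
    intro a
    rw [← Ideal.mem_comap, Ideal.comap_map_of_surjective _ Ideal.Quotient.mk_surjective,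
      ← RingHom.ker_eq_comap_bot, Ideal.mk_ker, sup_eq_left.2 hIc, RingHom.mem_ker]
  have hP : P.IsPrime := by
    have : (RingHom.ker (MvPolynomial.eval c)).IsPrime := RingHom.ker_isPrime _
    exact Ideal.map_isPrime_of_surjective Ideal.Quotient.mk_surjective (by rwa [Ideal.mk_ker])
  have hunit : ∀ y : P.primeCompl, IsUnit (φ₁ y) := by
    rintro ⟨y, hy⟩
    obtain ⟨a, rfl⟩ := Ideal.Quotient.mk_surjective y
    have ha : MvPolynomial.eval c a ≠ 0 := fun h => hy ((hPmem a).2 h)
    rw [TrivSqZeroExt.isUnit_iff_isUnit_fst]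
    change IsUnit (φ₀ a).fst
    rw [hfst]
    exact ha.isUnit
  let φ : Localization.AtPrime P →ₐ[ℂ] DualNumber ℂ :=
    IsLocalization.liftAlgHom (M := P.primeCompl) (f := φ₁) hunit
  let π : MvPolynomial idx ℂ →+* Localization.AtPrime P :=
    (algebraMap _ _).comp (Ideal.Quotient.mk I)
  have hφπ : ∀ a, φ (π a) = φ₀ a := by
    intro a
    simp [φ, π, φ₁]
  have hG1 : (fun i => MvPolynomial.map (MvPolynomial.eval c) (G i)) = om ℂ := funext hGc
  have hG2 : (fun p : Fin (3+1) × Fin (3+1) =>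
      MvPolynomial.map (MvPolynomial.eval c) (pderiv p.1 (G p.2) - pderiv p.2 (G p.1))) =
      fun p : Fin 4 × Fin 4 => pderiv p.1 (om ℂ p.2) - pderiv p.2 (om ℂ p.1) := by
    funext p
    rw [map_sub, ← pderiv_map, ← pderiv_map, hGc, hGc]
  have hreg := H 3 7 (by norm_num) G (fun _ => rfl) I rfl c hc0 hIc
    (by rw [hG1]; exact sing_dim) (by rw [hG1, hG2]; exact nk_dim) P rfl
  rw [← IsLocalRing.spanFinrank_maximalIdeal_eq_finrank_cotangentSpace] at hreg
  have hv : ∃ p, v p ≠ 0 := by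
    by_contra hcon
    push Not at hcon
    have h0 := sum_sym_eq (et ℂ 0) (et_hom 0)
    have h1 : ∀ s : Sym (Fin 4) 8,
        coeff (Multiset.toFinsupp (s : Multiset (Fin 4))) (et ℂ 0) = 0 := fun s => hcon (0, s)
    simp only [h1, map_zero, zero_mul, Finset.sum_const_zero] at h0
    have := congrArg (MvPolynomial.eval (fun _ => (1 : ℂ))) h0
    simp [et] at this
  obtain ⟨p₀, hp₀⟩ := hv
  have hsnd : ∀ p, (φ (π (X p))).snd = v p := by
    intro p
    rw [hφπ]
    simp [φ₀, TrivSqZeroExt.algebraMap_eq_inl]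
  have hfst' : ∀ p, (φ (π (X p))).fst = c p := by
    intro p
    rw [hφπ, hfst, eval_X]
  obtain ⟨K, t, ht3, ht2, hK⟩ := lift_second_order (Localization.AtPrime P) φ hreg (π (X p₀))
    (by rw [hsnd]; exact hp₀)
  choose z hz using hK
  let Ψ : MvPolynomial idx ℂ →+* (Localization.AtPrime P ⧸ K) := (Ideal.Quotient.mk K).comp π
  have hΨ : ∀ p, Ψ (X p) = algebraMap ℂ _ (c p) + algebraMap ℂ _ (v p) * Ideal.Quotient.mk K t
      + Ideal.Quotient.mk K (z (π (X p))) * Ideal.Quotient.mk K t ^ 2 := by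
    intro p
    have := Ideal.Quotient.eq.2 (hz (π (X p)))
    rw [hsnd, hfst'] at this
    simpa [Ψ] using this
  have hobs := obstruction (Ideal.Quotient.mk K t)
    (by rw [← map_pow]; exact Ideal.Quotient.eq_zero_iff_mem.2 ht3)
    (fun i => ∑ s : Sym (Fin 4) 8, C (Ideal.Quotient.mk K (z (π (X (i, s))))) *
        ((s : Multiset (Fin 4)).map (fun j => X j)).prod)
  have hG := hjet Ψ _ _ hΨ
  simp only [← hG] at hobs
  rw [← hmapTh, coeff_map] at hobs
  have hzero : Ψ (coeff mu (G 0 * (pderiv 1 (G 3) - pderiv 3 (G 1))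
      + G 1 * (pderiv 3 (G 0) - pderiv 0 (G 3)) + G 3 * (pderiv 0 (G 1) - pderiv 1 (G 0)))) = 0 := by
    have hI : coeff mu (G 0 * (pderiv 1 (G 3) - pderiv 3 (G 1))
      + G 1 * (pderiv 3 (G 0) - pderiv 0 (G 3)) + G 3 * (pderiv 0 (G 1) - pderiv 1 (G 0))) ∈ I :=
      Ideal.subset_span (Or.inr ⟨0, 1, 3, mu, rfl⟩)
    simp only [Ψ, π, RingHom.comp_apply, Ideal.Quotient.eq_zero_iff_mem.2 hI, map_zero]
  rw [hzero, eq_comm, neg_eq_zero, ← map_pow, Ideal.Quotient.eq_zero_iff_mem] at hobs
  exact ht2 hobs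

end Pool.Agent.S00212
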