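import Pool.Statements.S00646
import Pool.Agent.Lib.MP_068a9c_al.Main

set_option autoImplicit false
open Pool Pool.MP_068a9c_al

namespace Pool.Agent.S00646

/-- The negation of the preceding statement: Every periodic group in which, for each finite subgroup H, any two conjugate prime-order elements of N(H)/H generate a finite subgroup lies in the smallest extension-closed class containing all 2-groups and all groups whose 2-generated subgroups are finite. -/
theorem result :
    ¬ (∀ (G : Type) [Group G], Monoid.IsTorsion G →
    (∀ (H : Subgroup G), (H : Set G).Finite →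
      ∀ a ∈ Subgroup.normalizer (H : Set G), ∀ b ∈ Subgroup.normalizer (H : Set G),
        ∀ p : ℕ, p.Prime →
        a ∉ H → a ^ p ∈ H →
        (∃ c ∈ Subgroup.normalizer (H : Set G), c * a * c⁻¹ * b⁻¹ ∈ H) →
        ((Subgroup.closure (insert a (insert b (H : Set G)))) : Set G).Finite) →
    ∀ (C : ∀ (K : Type) [Group K], Prop),
      (∀ (K L : Type) [Group K] [Group L], (K ≃* L) → C K → C L) →
      (∀ (K : Type) [Group K], IsPGroup 2 K → C K) →
      (∀ (K : Type) [Group K],
        (∀ x y : K, ((Subgroup.closure ({x, y} : Set K)) : Set K).Finite) → C K) →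
      (∀ (K : Type) [Group K] (N : Subgroup K) [N.Normal], C ↥N → C (K ⧸ N) → C K) →
      C G) := by
  intro h
  open Pool.Agent.Lib.MP_068a9c_al in
  exact h GG GG_torsion
    (fun H hH a ha b hb p hp haH hap hc =>
      Mag.shunkov WW_isPGroup H hH a ha b hb p hp haH hap hc)
    (fun K _ => ¬ Sec WW K) not_sec_iso not_sec_two not_sec_binFin not_sec_ext GG_sec

end Pool.Agent.S00646
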