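import Pool.Statements.S01269
import Pool.Agent.Lib.MP_3e9be7_al.H53Main

set_option autoImplicit false
open Classical
open Pool Pool.MP_3e9be7_al

namespace Pool.Agent.S01269

/-- Thompson's group F = ⟨a,b ∣ [ab⁻¹,a⁻¹ba], [ab⁻¹,a⁻²ba²]⟩ is sofic: each finite subset has, for every ε>0, a map into some Sym(n) that is ε-multiplicative there and moves over (1−ε)n points for each nonidentity element. -/
theorem result :
    ∀ (S : Finset (PresentedGroup ({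
          (FreeGroup.of (0 : Fin 2) * (FreeGroup.of (1 : Fin 2))⁻¹) *
            ((FreeGroup.of (0 : Fin 2))⁻¹ * FreeGroup.of (1 : Fin 2) * FreeGroup.of (0 : Fin 2)) *
            (FreeGroup.of (0 : Fin 2) * (FreeGroup.of (1 : Fin 2))⁻¹)⁻¹ *
            ((FreeGroup.of (0 : Fin 2))⁻¹ * FreeGroup.of (1 : Fin 2) * FreeGroup.of (0 : Fin 2))⁻¹,
          (FreeGroup.of (0 : Fin 2) * (FreeGroup.of (1 : Fin 2))⁻¹) *
            ((FreeGroup.of (0 : Fin 2))⁻¹ * (FreeGroup.of (0 : Fin 2))⁻¹ * FreeGroup.of (1 : Fin 2)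
              * FreeGroup.of (0 : Fin 2) * FreeGroup.of (0 : Fin 2)) *
            (FreeGroup.of (0 : Fin 2) * (FreeGroup.of (1 : Fin 2))⁻¹)⁻¹ *
            ((FreeGroup.of (0 : Fin 2))⁻¹ * (FreeGroup.of (0 : Fin 2))⁻¹ * FreeGroup.of (1 : Fin 2)
              * FreeGroup.of (0 : Fin 2) * FreeGroup.of (0 : Fin 2))⁻¹} : Set (FreeGroup (Fin 2)))))
      (ε : ℝ), 0 < ε →
      ∃ n : ℕ, ∃ φ : PresentedGroup ({
          (FreeGroup.of (0 : Fin 2) * (FreeGroup.of (1 : Fin 2))⁻¹) *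
            ((FreeGroup.of (0 : Fin 2))⁻¹ * FreeGroup.of (1 : Fin 2) * FreeGroup.of (0 : Fin 2)) *
            (FreeGroup.of (0 : Fin 2) * (FreeGroup.of (1 : Fin 2))⁻¹)⁻¹ *
            ((FreeGroup.of (0 : Fin 2))⁻¹ * FreeGroup.of (1 : Fin 2) * FreeGroup.of (0 : Fin 2))⁻¹,
          (FreeGroup.of (0 : Fin 2) * (FreeGroup.of (1 : Fin 2))⁻¹) *
            ((FreeGroup.of (0 : Fin 2))⁻¹ * (FreeGroup.of (0 : Fin 2))⁻¹ * FreeGroup.of (1 : Fin 2)
              * FreeGroup.of (0 : Fin 2) * FreeGroup.of (0 : Fin 2)) *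
            (FreeGroup.of (0 : Fin 2) * (FreeGroup.of (1 : Fin 2))⁻¹)⁻¹ *
            ((FreeGroup.of (0 : Fin 2))⁻¹ * (FreeGroup.of (0 : Fin 2))⁻¹ * FreeGroup.of (1 : Fin 2)
              * FreeGroup.of (0 : Fin 2) * FreeGroup.of (0 : Fin 2))⁻¹} : Set (FreeGroup (Fin 2)))
            → Equiv.Perm (Fin n),
        (∀ g ∈ S, ∀ h ∈ S,
          ((Finset.univ.filter (fun i : Fin n => φ (g * h) i ≠ (φ g * φ h) i)).card : ℝ)
            < ε * (n : ℝ)) ∧
        (∀ g ∈ S, g ≠ 1 →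
          ((Finset.univ.filter (fun i : Fin n => φ g i ≠ i)).card : ℝ) > (1 - ε) * (n : ℝ)) := by
  exact Pool.Agent.Lib.MP_3e9be7_al.Stk.thompsonF_sofic

end Pool.Agent.S01269
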