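import Pool.Statements.S01281
import Pool.Agent.Lib.MP_3f2ebd_al.Baer

set_option autoImplicit false
open Pool Pool.MP_3f2ebd_al

namespace Pool.Agent.S01281

/-- In every group where each centralizer of a subset equals the centralizer of a finite subset of it, every bounded right Engel element a has some n ≥ 1 such that, for all x, the subgroup generated by x is subnormal of defect at most n in it times the normal closure of a. -/
theorem result :
    ∀ (G : Type) [Group G],
      (∀ X : Set G, ∃ X₀ : Finset G, (↑X₀ : Set G) ⊆ X ∧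
          Subgroup.centralizer X = Subgroup.centralizer (↑X₀ : Set G)) →
      ∀ a : G,
        (∃ m : ℕ, ∀ x : G, (fun y : G => y⁻¹ * (x⁻¹ * y * x))^[m] a = 1) →
        ∃ n : ℕ, 1 ≤ n ∧ ∀ x : G, ∃ H : ℕ → Subgroup G,
          H 0 = Subgroup.zpowers x ∧
          H n = Subgroup.zpowers x ⊔ Subgroup.normalClosure ({a} : Set G) ∧
          ∀ i : ℕ, i < n → (H i ≤ H (i + 1) ∧ ((H i).subgroupOf (H (i + 1))).Normal) := by
  intro G _ hG a ⟨m, hm⟩
  exact Pool.Agent.Lib.MP_3f2ebd_al.main hG a hm

end Pool.Agent.S01281
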