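import Pool.Statements.S02443
import Pool.Agent.Lib.MP_9aaefc_al.Series

set_option autoImplicit false
open Pool Pool.MP_9aaefc_al

namespace Pool.Agent.S02443

/-- For every n, if an invertible formal map F in n variables over ℂ satisfies F∘H∘F = H for some invertible formal map H, then some formal map K of finite compositional order also satisfies F∘K∘F = K. -/
theorem result :
    ∀ (n : ℕ) (F H : Fin n → MvPowerSeries (Fin n) ℂ),
      (∀ i, F i 0 = 0) →
      (∃ G : Fin n → MvPowerSeries (Fin n) ℂ, (∀ i, G i 0 = 0) ∧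
          (∀ i, MvPowerSeries.subst G (F i) = MvPowerSeries.X i) ∧
          (∀ i, MvPowerSeries.subst F (G i) = MvPowerSeries.X i)) →
      (∀ i, H i 0 = 0) →
      (∃ G : Fin n → MvPowerSeries (Fin n) ℂ, (∀ i, G i 0 = 0) ∧
          (∀ i, MvPowerSeries.subst G (H i) = MvPowerSeries.X i) ∧
          (∀ i, MvPowerSeries.subst H (G i) = MvPowerSeries.X i)) →
      (∀ i, MvPowerSeries.subst (fun j => MvPowerSeries.subst F (H j)) (F i) = H i) →
      ∃ K : Fin n → MvPowerSeries (Fin n) ℂ, (∀ i, K i 0 = 0) ∧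
        (∃ k : ℕ, 1 ≤ k ∧
          (fun M : Fin n → MvPowerSeries (Fin n) ℂ => fun i => MvPowerSeries.subst M (K i))^[k]
              (fun i => MvPowerSeries.X i) = (fun i => MvPowerSeries.X i)) ∧
        (∀ i, MvPowerSeries.subst (fun j => MvPowerSeries.subst F (K j)) (F i) = K i) := by
  rintro n F H hF ⟨G, hG, hGF, hFG⟩ hH ⟨H', hH', hHH, -⟩ hrev
  exact Pool.Agent.Lib.MP_9aaefc_al.main F G H H' hF hG hH hH' hGF hFG hHH hrev

end Pool.Agent.S02443
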