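import Pool.Statements.S02575
import Pool.Agent.Shared.OneRelator.LocInd
import Pool.Agent.Shared.OneRelator.Fox

set_option autoImplicit false
open Pool Pool.MP_a48479_al

namespace Pool.Agent.S02575

open Pool.Agent.Shared.OneRelator Pool.Agent.Shared.StallingsSwan

theorem ker_mk {X : Type} (R : Set (FreeGroup X)) :
    (PresentedGroup.mk R).ker = Subgroup.normalClosure R := by
  ext w
  rw [MonoidHom.mem_ker, PresentedGroup.mk_eq_one_iff]

/-- For every one-relator group on finitely many generators that has a nontrivial element of finite order, every subgroup meeting the subgroup generated by all finite-order elements trivially is a free group. -/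
theorem result :
    ∀ (n : ℕ) (r : FreeGroup (Fin n)),
      (∃ g : PresentedGroup ({r} : Set (FreeGroup (Fin n))), g ≠ 1 ∧ IsOfFinOrder g) →
      ∀ H : Subgroup (PresentedGroup ({r} : Set (FreeGroup (Fin n)))),
        H ⊓ Subgroup.closure
            {g : PresentedGroup ({r} : Set (FreeGroup (Fin n))) | IsOfFinOrder g} = ⊥ →
        IsFreeGroup H := by
  rintro n r ⟨g₀, hg₀, hfin⟩ H hH
  let σ := PresentedGroup.mk ({r} : Set (FreeGroup (Fin n)))
  have hσ : Function.Surjective σ := PresentedGroup.mk_surjective _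
  have hσr : σ r = 1 := PresentedGroup.one_of_mem rfl
  have hr : r ≠ 1 := by
    intro h1
    obtain ⟨w, rfl⟩ := hσ g₀
    have hinj : Function.Injective σ := by
      rw [← MonoidHom.ker_eq_bot_iff, ker_mk, eq_bot_iff]
      exact Subgroup.normalClosure_le_normal (by simp [h1])
    rw [hinj.isOfFinOrder_iff] at hfin
    exact hg₀ (by rw [hfin.eq_one', map_one])
  obtain ⟨u, s, m, hs, hm, hrs⟩ := exists_prim r hr
  have hσs : σ (FreeGroup.mk s) ^ m = 1 := by
    have h1 := (congrArg σ hrs).symm.trans hσr
    rw [map_mul, map_mul, map_inv, map_pow] at h1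
    simpa using h1
  let ρ := PresentedGroup.mk ({FreeGroup.mk s} : Set (FreeGroup (Fin n)))
  have hρs : ρ (FreeGroup.mk s) = 1 := PresentedGroup.one_of_mem rfl
  have hρr : ρ r = 1 := by
    rw [hrs, map_mul, map_mul, map_pow, hρs, one_pow, mul_one, ← map_mul, mul_inv_cancel, map_one]
  have hm1 : m ≠ 1 := by
    rintro rfl
    refine hg₀ ((locInd_of_prim hs σ hσ (le_antisymm ?_ ?_)).eq_one_of_isOfFinOrder hfin)
    · rw [ker_mk, ← ker_mk {FreeGroup.mk s}]
      exact Subgroup.normalClosure_le_normal (by simpa using hρr)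
    · exact Subgroup.normalClosure_le_normal (by simpa using hσs)
  obtain ⟨p, hp, hpm⟩ := Nat.exists_prime_and_dvd hm1
  have : Fact p.Prime := ⟨hp⟩
  have hLI := locInd_of_prim hs ρ (PresentedGroup.mk_surjective _) (ker_mk _)
  have hle : σ.ker ≤ ρ.ker := by
    rw [ker_mk]
    exact Subgroup.normalClosure_le_normal (by simpa using hρr)
  let q := σ.liftOfSurjective hσ ⟨ρ, hle⟩
  have hq : q.comp σ = ρ := σ.liftOfRightInverse_comp _ _ _
  have : Countable (PresentedGroup ({r} : Set (FreeGroup (Fin n)))) := hσ.countable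
  refine isFreeGroup_of_embeds (k := ZMod p) ρ σ hσ ?_ H.subtype q hq ?_ hLI
  · rw [ker_mk]
    refine Subgroup.normalClosure_le_normal ?_
    have h1 := fox_pow (k := ZMod p) ρ hρs ((ZMod.natCast_eq_zero_iff m p).2 hpm)
    rw [Set.singleton_subset_iff, SetLike.mem_coe, MonoidHom.mem_ker, hrs, map_mul, map_mul, h1]
    simp
  · rw [injective_iff_map_eq_one]
    intro h hh
    obtain ⟨w, hw⟩ := hσ h
    have h1 : w ∈ Subgroup.normalClosure {FreeGroup.mk s} := by
      rw [← ker_mk, MonoidHom.mem_ker]
      change ρ w = 1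
      rw [← hq, MonoidHom.comp_apply, hw]
      exact hh
    have h2 : Subgroup.normalClosure {FreeGroup.mk s} ≤ (Subgroup.closure
        {g : PresentedGroup ({r} : Set (FreeGroup (Fin n))) | IsOfFinOrder g}).comap σ := by
      rw [Subgroup.normalClosure, Subgroup.closure_le]
      intro a ha
      obtain ⟨b, hb, hab⟩ := Group.mem_conjugatesOfSet_iff.1 ha
      rw [Set.mem_singleton_iff.1 hb] at hab
      obtain ⟨c, rfl⟩ := isConj_iff.1 hab
      refine Subgroup.subset_closure (isOfFinOrder_iff_pow_eq_one.2 ⟨m, hm, ?_⟩)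
      rw [map_mul, map_mul, map_inv, conj_pow, hσs]
      simp
    have h3 : (h : PresentedGroup ({r} : Set (FreeGroup (Fin n)))) ∈ (⊥ : Subgroup _) := by
      rw [← hH]
      exact ⟨h.2, hw ▸ h2 h1⟩
    exact Subtype.ext (Subgroup.mem_bot.1 h3)

end Pool.Agent.S02575
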