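import Pool.Statements.S03146
import Pool.Agent.Lib.MP_d24f8b_al.Wreath

set_option autoImplicit false
open Pool Pool.MP_d24f8b_al

namespace Pool.Agent.S03146

/-- The negation of the preceding statement: For every finitely generated group G and field K, the Jacobson radical of the group algebra K[G] equals the join of all two-sided ideals I of K[G] with I^n = 0 for some n. -/
theorem result :
    ¬ (∀ (G : Type) [Group G] [Group.FG G] (K : Type) [Field K],
      Ideal.jacobson (⊥ : Ideal (MonoidAlgebra K G)) =
        sSup {I : Ideal (MonoidAlgebra K G) |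
          (∀ a ∈ I, ∀ b : MonoidAlgebra K G, a * b ∈ I) ∧
            ∃ n : ℕ, ∀ x : Fin n → MonoidAlgebra K G,
              (∀ i, x i ∈ I) → (List.ofFn x).prod = 0}) := by
  intro h
  have h1 := h Pool.Agent.Lib.MP_d24f8b_al.G (ZMod 2)
  rw [Pool.Agent.Lib.MP_d24f8b_al.NilSet_eq] at h1
  exact Pool.Agent.Lib.MP_d24f8b_al.E_not_mem
    (h1 ▸ Pool.Agent.Lib.MP_d24f8b_al.E_mem_jacobson)

end Pool.Agent.S03146
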