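import Pool.Statements.S03336
import Pool.Agent.Lib.MP_e1f2e6_al.Base

set_option autoImplicit false
open Pool Pool.MP_e1f2e6_al

namespace Pool.Agent.S03336

open Pool.Agent.Lib.MP_e1f2e6_al

/-- the automorphism tower of `Gr` -/
def Tw : ℕ → Type
  | 0 => Gr
  | (n + 1) => B n

instance instGroupTw : ∀ n, Group (Tw n)
  | 0 => inferInstanceAs (Group Gr)
  | (n + 1) => inferInstanceAs (Group (B n))

lemma Tw_step : ∀ n : ℕ, Nonempty (Tw (n + 1) ≃* MulAut (Tw n))
  | 0 => base_step
  | (n + 1) => B_step n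

/-- The negation of the preceding statement: For every finitely generated torsion-free nilpotent group G, the sequence G, Aut G, Aut Aut G, … has only finitely many isomorphism types: some N exists so each term is isomorphic to one of the first N+1 terms. -/
theorem result :
    ¬ (∀ (G : Type) [Group G], Group.FG G → Group.IsNilpotent G →
      (∀ g : G, ∀ n : ℕ, n ≠ 0 → g ^ n = 1 → g = 1) →
      ∀ (A : ℕ → Type) [∀ n, Group (A n)],
        Nonempty (A 0 ≃* G) →
        (∀ n : ℕ, Nonempty (A (n + 1) ≃* MulAut (A n))) →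
        ∃ N : ℕ, ∀ n : ℕ, ∃ m : ℕ, m ≤ N ∧ Nonempty (A n ≃* A m)) := by
  intro h
  obtain ⟨N, hN⟩ := h Gr gr_fg gr_nilpotent
    (fun g n hn hg => Gr.pow_inj hn (by rw [hg, one_pow])) Tw ⟨MulEquiv.refl _⟩ Tw_step
  choose f hf he using hN
  let F : ℕ → Fin (N + 1) := fun k => ⟨f (k + 3), Nat.lt_succ_of_le (hf _)⟩
  obtain ⟨k, l, hkl, hF⟩ := Finite.exists_ne_map_eq_of_infinite F
  have h1 : f (k + 3) = f (l + 3) := congrArg Fin.val hF
  obtain ⟨e1⟩ := he (k + 3)
  obtain ⟨e2⟩ := he (l + 3)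
  rw [← h1] at e2
  have e : Tw (k + 3) ≃* Tw (l + 3) := e1.trans e2.symm
  rcases lt_or_gt_of_ne hkl with h | h
  · exact (B_not_iso h).false e.symm
  · exact (B_not_iso h).false e

end Pool.Agent.S03336
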