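import Pool.Statements.S03425
import Pool.Agent.Lib.MP_e97be0_al.Final

set_option autoImplicit false
open Pool Pool.MP_e97be0_al

namespace Pool.Agent.S03425

/-- There is a simple group G such that: some n makes every element a product of n conjugates of any fixed nontrivial element; maximal abelian subgroups are all conjugate, self-normalizing, and the centralizer of each nontrivial member; and some m makes each element a product of m elements of aH for a o -/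
theorem result :
    ∃ (G : Type) (_ : Group G),
      IsSimpleGroup G ∧
      (∃ n : ℕ, ∀ g : G, g ≠ 1 → ∀ x : G,
        ∃ f : Fin n → G, (∀ i, IsConj g (f i)) ∧ (List.ofFn f).prod = x) ∧
      (∀ H K : Subgroup G,
        Maximal (fun L : Subgroup G => ∀ x ∈ L, ∀ y ∈ L, x * y = y * x) H →
        Maximal (fun L : Subgroup G => ∀ x ∈ L, ∀ y ∈ L, x * y = y * x) K →
        ∃ g : G, ∀ x : G, x ∈ K ↔ g⁻¹ * x * g ∈ H) ∧
      (∀ H : Subgroup G,
        Maximal (fun L : Subgroup G => ∀ x ∈ L, ∀ y ∈ L, x * y = y * x) H →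
        (∀ g : G, (∀ x : G, x ∈ H ↔ g * x * g⁻¹ ∈ H) → g ∈ H) ∧
        (∀ h : G, h ∈ H → h ≠ 1 → ∀ g : G, (g * h = h * g ↔ g ∈ H))) ∧
      (∃ m : ℕ, ∀ H : Subgroup G,
        Maximal (fun L : Subgroup G => ∀ x ∈ L, ∀ y ∈ L, x * y = y * x) H →
        ∀ a : G, a ∉ H → ∀ x : G,
          ∃ f : Fin m → G, (∀ i, a⁻¹ * f i ∈ H) ∧ (List.ofFn f).prod = x) := by
  obtain ⟨G, _, kG, hne, hS⟩ := Pool.Agent.Lib.MP_e97be0_al.exists_closed
  have hconj := fun (g : G) (hg : g ≠ 1) (x : G) =>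
    Pool.Agent.Lib.MP_e97be0_al.conj_cover kG hne hS hg x
  refine ⟨G, inferInstance, ?_, ⟨18, fun g hg x => (hconj g hg x).fn⟩, ?_, ?_, ⟨19, ?_⟩⟩
  · obtain ⟨a, b, hab⟩ := hne
    have : Nontrivial G := ⟨⟨a, 1, fun e => hab (by rw [e]; exact Commute.one_left b)⟩⟩
    refine ⟨fun N hN => ?_⟩
    by_cases hbot : N = ⊥
    · exact Or.inl hbot
    · right
      obtain ⟨⟨g, hg⟩, hg1⟩ := (Subgroup.ne_bot_iff_exists_ne_one (H := N)).1 hbot
      have hg1' : g ≠ 1 := fun e => hg1 (Subtype.ext e)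
      rw [eq_top_iff]
      rintro x -
      obtain ⟨l, -, h1, rfl⟩ := hconj g hg1' x
      refine N.list_prod_mem fun z hz => ?_
      obtain ⟨c, rfl⟩ := isConj_iff.1 (h1 z hz)
      exact hN.conj_mem g hg c
  · intro H K hH hK
    obtain ⟨h, hh, hH'⟩ := Pool.Agent.Lib.MP_e97be0_al.max_ab kG hne hH
    obtain ⟨k, hk, hK'⟩ := Pool.Agent.Lib.MP_e97be0_al.max_ab kG hne hK
    obtain ⟨t, ht⟩ := (hS (h, k, 1)).1 hh hk
    simp only [MonoidHom.id_apply] at ht
    refine ⟨t, fun x => ?_⟩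
    rw [hK', hH', ← Pool.Agent.Lib.MP_e97be0_al.commute_conj_iff t]
    exact ⟨fun e => kG.ct _ _ _ (Pool.Agent.Lib.MP_e97be0_al.conj_ne_one t hk) ht.symm e,
      fun e => kG.ct _ _ _ hh ht e⟩
  · intro H hH
    obtain ⟨h, hh, hH'⟩ := Pool.Agent.Lib.MP_e97be0_al.max_ab kG hne hH
    refine ⟨fun g hg => ?_, fun c hc hc1 g => ?_⟩
    · rw [hH']
      exact kG.mn h g hh ((hH' _).1 ((hg h).1 ((hH' h).2 (Commute.refl h))))
    · rw [hH'] at hc ⊢
      exact ⟨fun e => kG.ct c _ _ hc1 hc.symm (Eq.symm e),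
        fun e => (kG.ct h _ _ hh e hc).eq⟩
  · intro H hH a ha x
    obtain ⟨h, hh, hH'⟩ := Pool.Agent.Lib.MP_e97be0_al.max_ab kG hne hH
    obtain ⟨f, h1, h2⟩ := (Pool.Agent.Lib.MP_e97be0_al.coset_cover kG hS hh
      (fun e => ha ((hH' a).2 e)) x).fn
    exact ⟨f, fun i => (hH' _).2 (h1 i), h2⟩

end Pool.Agent.S03425
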