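import Pool.Statements.S04514
import Pool.Agent.Lib.MP_442e5a_an.Final

set_option autoImplicit false
open MeasureTheory
open Pool Pool.MP_442e5a_an

namespace Pool.Agent.S04514

/-- The negation of the preceding statement: For every n, if u is holomorphic on the tube over positive definite symmetric n×n matrices and its L² norms on horizontal slices are uniformly bounded (u in H²), then for almost every real x, sup over y in the cone of ∣u(x+iy)∣ is finite. -/
theorem result :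
    ¬ (∀ n : ℕ, ∀ S : ({p : Fin n × Fin n // p.1 ≤ p.2} → ℝ) → Matrix (Fin n) (Fin n) ℝ,
    S = (fun (y : {p : Fin n × Fin n // p.1 ≤ p.2} → ℝ) =>
      Matrix.of (fun (i j : Fin n) =>
        if h : i ≤ j then y ⟨(i, j), h⟩ else y ⟨(j, i), (not_le.mp h).le⟩)) →
    ∀ u : ({p : Fin n × Fin n // p.1 ≤ p.2} → ℂ) → ℂ,
      DifferentiableOn ℂ u
        {z : {p : Fin n × Fin n // p.1 ≤ p.2} → ℂ | (S (fun k => (z k).im)).PosDef} →
      (∃ C : ℝ, ∀ y : {p : Fin n × Fin n // p.1 ≤ p.2} → ℝ, (S y).PosDef →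
        ∫⁻ (x : {p : Fin n × Fin n // p.1 ≤ p.2} → ℝ),
          ‖u (fun k => (x k : ℂ) + (y k : ℂ) * Complex.I)‖ₑ ^ 2 ≤ ENNReal.ofReal C) →
      ∀ᵐ (x : {p : Fin n × Fin n // p.1 ≤ p.2} → ℝ)
          ∂(volume : Measure ({p : Fin n × Fin n // p.1 ≤ p.2} → ℝ)),
        ∃ M : ℝ, ∀ y : {p : Fin n × Fin n // p.1 ≤ p.2} → ℝ, (S y).PosDef →
          ‖u (fun k => (x k : ℂ) + (y k : ℂ) * Complex.I)‖ ≤ M) := by
  intro h
  obtain ⟨u, h1, h2, h3⟩ := Pool.Agent.Lib.MP_442e5a_an.exists_counterexample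
  exact h3 (h 2 Pool.Agent.Lib.MP_442e5a_an.SS rfl u h1 h2)

end Pool.Agent.S04514
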