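import Pool.Statements.S05279
import Pool.Agent.Lib.MP_86b0a6_an.Final

set_option autoImplicit false
open MeasureTheory Filter Topology
open Pool Pool.MP_86b0a6_an

namespace Pool.Agent.S05279

/-- For comeager many measure-preserving automorphisms T of [0,1], some continuous flow T_t with T_1=T exists so that for all k≥1 and 0<t_1<…<t_k the operator U_{t_1}⊗…⊗U_{t_k} has a cyclic vector on L²_0^{⊗k}. -/
theorem result :
    {T : {T : unitInterval ≃ᵐ unitInterval //
          MeasurePreserving (⇑T) (volume : Measure unitInterval) (volume : Measure unitInterval)} |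
      ∃ Φ : ℝ → {T : unitInterval ≃ᵐ unitInterval //
          MeasurePreserving (⇑T) (volume : Measure unitInterval) (volume : Measure unitInterval)},
        (∀ s t : ℝ, ∀ᵐ x : unitInterval ∂(volume : Measure unitInterval),
          (⇑(Φ (s + t)).1) x = (⇑(Φ s).1) ((⇑(Φ t).1) x)) ∧
        (∀ A : Set unitInterval, MeasurableSet A → ∀ t₀ : ℝ,
          Tendsto (fun s : ℝ => (volume : Measure unitInterval)
              (symmDiff ((⇑(Φ s).1) '' A) ((⇑(Φ t₀).1) '' A)))
            (𝓝 t₀) (𝓝 0)) ∧
        (∀ᵐ x : unitInterval ∂(volume : Measure unitInterval), (⇑(Φ 1).1) x = (⇑T.1) x) ∧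
        ∀ k : ℕ, 1 ≤ k → ∀ t : Fin k → ℝ, StrictMono t → (∀ i, 0 < t i) →
          ∃ f : (Fin k → unitInterval) → ℂ, MemLp f 2 (volume : Measure (Fin k → unitInterval)) ∧
            (∀ i : Fin k, ∀ g : (Fin k → unitInterval) → ℂ,
              MemLp g 2 (volume : Measure (Fin k → unitInterval)) →
              (∀ (x : Fin k → unitInterval) (y : unitInterval), g (Function.update x i y) = g x) →
              ∫ x, f x * starRingEnd ℂ (g x) ∂(volume : Measure (Fin k → unitInterval)) = 0) ∧
            ∀ h : (Fin k → unitInterval) → ℂ, MemLp h 2 (volume : Measure (Fin k → unitInterval)) →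
              (∀ i : Fin k, ∀ g : (Fin k → unitInterval) → ℂ,
                MemLp g 2 (volume : Measure (Fin k → unitInterval)) →
                (∀ (x : Fin k → unitInterval) (y : unitInterval), g (Function.update x i y) = g x) →
                ∫ x, h x * starRingEnd ℂ (g x) ∂(volume : Measure (Fin k → unitInterval)) = 0) →
              ∀ ε : ℝ, 0 < ε → ∃ N : Finset ℤ, ∃ c : ℤ → ℂ,
                eLpNorm (fun x : Fin k → unitInterval => h x - ∑ n ∈ N, c n *
                  f (fun i : Fin k =>
                    (⇑(((Φ (t i)).1.toEquiv : Equiv.Perm unitInterval) ^ n)) (x i)))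
                  2 (volume : Measure (Fin k → unitInterval)) < ENNReal.ofReal ε}
    ∈ @residual {T : unitInterval ≃ᵐ unitInterval //
          MeasurePreserving (⇑T) (volume : Measure unitInterval) (volume : Measure unitInterval)}
      (TopologicalSpace.generateFrom
        {U : Set {T : unitInterval ≃ᵐ unitInterval //
            MeasurePreserving (⇑T) (volume : Measure unitInterval) (volume : Measure unitInterval)} |
          ∃ T₀ : {T : unitInterval ≃ᵐ unitInterval //
            MeasurePreserving (⇑T) (volume : Measure unitInterval) (volume : Measure unitInterval)},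
          ∃ A : Set unitInterval, MeasurableSet A ∧ ∃ ε : ℝ, 0 < ε ∧
            U = {S : {T : unitInterval ≃ᵐ unitInterval //
                  MeasurePreserving (⇑T) (volume : Measure unitInterval)
                    (volume : Measure unitInterval)} |
                (volume : Measure unitInterval) (symmDiff ((⇑S.1) '' A) ((⇑T₀.1) '' A))
                  < ENNReal.ofReal ε}}) := by
  refine @Filter.mem_of_superset _ (@residual _ Lib.MP_86b0a6_an.weak) _ _
    Lib.MP_86b0a6_an.residual_aut ?_
  rintro T ⟨Φ, hΦ, hG, h1⟩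
  choose S hS using hΦ.exists_jj
  refine ⟨S, fun s t => ?_, fun A hA t₀ => ?_, ?_, fun k _ t ht ht0 => ?_⟩
  · have h := hΦ.add s t
    rw [← hS, ← hS, ← hS] at h
    exact (Lib.MP_86b0a6_an.mk_eq_iff _ _).1
      (h.trans (Lib.MP_86b0a6_an.mk_mul_mk (S s).2 (S t).2))
  · exact Lib.MP_86b0a6_an.tendsto_symmDiff (by simpa only [hS] using Φ.continuous) hA t₀
  · exact (Lib.MP_86b0a6_an.mk_eq_iff _ _).1 ((hS 1).trans h1)
  · obtain ⟨F, hF, H⟩ := hG k t ht0 ht.injective
    refine ⟨F, Lp.memLp F, fun i g hg hi => ?_, fun h hh hh' ε hε => ?_⟩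
    · exact (Lib.MP_86b0a6_an.inner_toLp hg (EventuallyEq.refl _ _)).symm.trans
        (Lib.MP_86b0a6_an.mem_HH.1 hF i g hg hi)
    · obtain ⟨q, hq⟩ := H (hh.toLp h) (Lib.MP_86b0a6_an.mem_HH.2 fun i g hg hi =>
        (Lib.MP_86b0a6_an.inner_toLp hg hh.coeFn_toLp).trans (hh' i g hg hi)) ε hε
      refine Lib.MP_86b0a6_an.eLpNorm_lt (fun l => S (t l)) F hh q ?_
      simpa only [hS] using hq

end Pool.Agent.S05279
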