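import Pool.Statements.S05419
import Pool.Agent.Lib.MP_92e372_an.Main

set_option autoImplicit false
open Pool Pool.MP_92e372_an

namespace Pool.Agent.S05419

/-- For unital C*-algebras A and B, every surjective unital complex-linear map from A to B that
sends invertible elements to invertible elements is a Jordan homomorphism. -/
theorem result :
    ∀ (A B : Type) [CStarAlgebra A] [CStarAlgebra B] (φ : A →ₗ[ℂ] B),
      Function.Surjective φ → φ 1 = 1 → (∀ a : A, IsUnit a → IsUnit (φ a)) →
      ∀ a : A, φ (a * a) = φ a * φ a := by
  intro A B _ _ φ hs h1 hu a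
  rcases subsingleton_or_nontrivial B with hB | hB
  · exact Subsingleton.elim _ _
  · exact Pool.Agent.Lib.MP_92e372_an.sq_general
      ⟨φ, Pool.Agent.Lib.MP_92e372_an.continuous_of_preserves φ hs h1 hu⟩ hs h1 hu a

end Pool.Agent.S05419
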