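import Pool.Statements.S05460
import Pool.Agent.Lib.MP_95bae3_an.Lamplighter
import Pool.Agent.Lib.MP_95bae3_an.Orbit

set_option autoImplicit false
open Pool Pool.MP_95bae3_an

namespace Pool.Agent.S05460

/-- Counterexample: the lamplighter group acting on the closed span of the right translates of a
nonconstant bounded harmonic function. -/
theorem result :
    ¬ (∀ (G : Type) [Group G] [Countable G],
      (∀ (F : Finset G) (ε : ℝ), 0 < ε → ∃ A : Set G, A.Finite ∧ A.Nonempty ∧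
          ∀ g ∈ F, ((symmDiff ((fun x => g * x) '' A) A).ncard : ℝ) < ε * (A.ncard : ℝ)) →
      ∀ (X : Type) [NormedAddCommGroup X] [NormedSpace ℝ X] [CompleteSpace X]
        [TopologicalSpace.SeparableSpace X] (ρ : G →* (X ≃ₗᵢ[ℝ] X)),
      ∃ N : X → ℝ,
        (∀ x y : X, N (x + y) ≤ N x + N y) ∧
        (∀ (c : ℝ) (x : X), N (c • x) = |c| * N x) ∧
        (∃ a b : ℝ, 0 < a ∧ 0 < b ∧ ∀ x : X, a * ‖x‖ ≤ N x ∧ N x ≤ b * ‖x‖) ∧
        (∀ (g : G) (x : X), N (ρ g x) = N x) ∧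
        (∀ x y : X, N x = 1 → N y = 1 → x ≠ y → N ((1 / 2 : ℝ) • (x + y)) < 1)) := by
  intro H
  let _ : TopologicalSpace Lib.MP_95bae3_an.Lamp := ⊥
  have _ : DiscreteTopology Lib.MP_95bae3_an.Lamp := ⟨rfl⟩
  let f : BoundedContinuousFunction Lib.MP_95bae3_an.Lamp ℝ :=
    BoundedContinuousFunction.ofNormedAddCommGroupDiscrete Lib.MP_95bae3_an.harm 1
      (fun x => Lib.MP_95bae3_an.abs_harm_le x)
  obtain ⟨N, -, hsmul, ⟨a, b, ha, -, hab⟩, hinv, hs⟩ :=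
    H Lib.MP_95bae3_an.Lamp Lib.MP_95bae3_an.folner (Lib.MP_95bae3_an.orb f)
      (Lib.MP_95bae3_an.rho f)
  have hf : ∀ x, f x = Lib.MP_95bae3_an.harm x := fun x => rfl
  refine Lib.MP_95bae3_an.no_strict f Lib.MP_95bae3_an.genA Lib.MP_95bae3_an.genB
    (fun g => ?_) ⟨⟨0, -1⟩, ?_⟩ N hsmul ⟨a, ha, fun x => (hab x).1⟩ hinv hs
  · rw [hf, hf, hf]
    exact Lib.MP_95bae3_an.harm_avg g
  · rw [hf, hf]
    exact Lib.MP_95bae3_an.harm_ne

end Pool.Agent.S05460
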