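import Pool.Statements.S05784
import Pool.Agent.Lib.MP_ac4964_an.Main

set_option autoImplicit false
open Pool Pool.MP_ac4964_an

namespace Pool.Agent.S05784

/-- The negation of the preceding statement: For every Effros-Borel-parametrized (analytic) family of closed subspaces of C(2^ℕ) none containing ℓ1, some closed subspace of C(2^ℕ) not containing ℓ1 contains an isomorphic copy of every member. -/
theorem result :
    ¬ (∀ f : (ℕ → ℕ) → Submodule ℝ C(ℕ → Bool, ℝ),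
      (∀ x, IsClosed (f x : Set C(ℕ → Bool, ℝ))) →
      (∀ U : Set C(ℕ → Bool, ℝ), IsOpen U →
        MeasurableSet {x : ℕ → ℕ | ((f x : Set C(ℕ → Bool, ℝ)) ∩ U).Nonempty}) →
      (∀ x, ¬ ∃ T : lp (fun _ : ℕ => ℝ) 1 →L[ℝ] ↥(f x),
          ∃ c : ℝ, 0 < c ∧ ∀ v, c * ‖v‖ ≤ ‖T v‖) →
      ∃ Y : Submodule ℝ C(ℕ → Bool, ℝ),
        IsClosed (Y : Set C(ℕ → Bool, ℝ)) ∧
        (¬ ∃ T : lp (fun _ : ℕ => ℝ) 1 →L[ℝ] ↥Y,
            ∃ c : ℝ, 0 < c ∧ ∀ v, c * ‖v‖ ≤ ‖T v‖) ∧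
        ∀ x, ∃ T : ↥(f x) →L[ℝ] ↥Y,
          ∃ c : ℝ, 0 < c ∧ ∀ v, c * ‖v‖ ≤ ‖T v‖) := by
  intro h
  obtain ⟨J, hJ1, hJ2⟩ := Lib.MP_ac4964_an.exists_embedding Lib.MP_ac4964_an.NA
    (Lib.MP_ac4964_an.NN_usc Lib.MP_ac4964_an.continuous_Cl Lib.MP_ac4964_an.hgen)
    (fun g => 2 ^ Lib.MP_ac4964_an.lev (Sum.inl g) + 1) (fun g => by positivity)
    Lib.MP_ac4964_an.NA_single
  let π : (ℕ → ℕ) → Lib.MP_ac4964_an.Bits := fun x n => (x n : ZMod 2)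
  have hπ : Measurable π :=
    measurable_pi_lambda _ fun n => (measurable_of_countable _).comp (measurable_pi_apply n)
  obtain ⟨Y, hY1, hY2, hY3⟩ := h (fun x => (LinearMap.range (J (π x))).topologicalClosure)
    (fun x => Submodule.isClosed_topologicalClosure _)
    (fun U hU => hπ (hJ2 U hU))
    (fun x => Lib.MP_ac4964_an.not_hasL1_closure (π x) (J (π x)) (hJ1 (π x)))
  refine hY2 (Lib.MP_ac4964_an.hasL1_of_family J hJ1 Y hY1 fun α => ?_)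
  obtain ⟨x, rfl⟩ : ∃ x, π x = α := ⟨fun n => (α n).val, funext fun n => by simp [π]⟩
  exact hY3 x

end Pool.Agent.S05784
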