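import Pool.Statements.S06401
import Pool.Agent.Lib.MP_ddde1e_an.Skew

set_option autoImplicit false
open Pool Pool.MP_ddde1e_an

namespace Pool.Agent.S06401

open Pool.Agent.Lib.MP_ddde1e_an Finset

/-- For every increasing sequence of naturals whose gaps tend to infinity, every bounded real sequence on it equals f(Tⁿx) along it, for some distal homeomorphism T of a compact metric space, some point x and some continuous f. -/
theorem result :
    ∀ n : ℕ → ℕ, StrictMono n →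
      Filter.Tendsto (fun k : ℕ => n (k + 1) - n k) Filter.atTop Filter.atTop →
      ∀ φ : ℕ → ℝ, (∃ C : ℝ, ∀ k : ℕ, |φ k| ≤ C) →
        ∃ (X : Type) (_ : MetricSpace X) (_ : CompactSpace X) (T : X ≃ₜ X),
          (∀ x y : X, x ≠ y → ∃ ε : ℝ, 0 < ε ∧ ∀ m : ℕ,
              ε ≤ dist ((⇑T)^[m] x) ((⇑T)^[m] y) ∧
              ε ≤ dist ((⇑T.symm)^[m] x) ((⇑T.symm)^[m] y)) ∧
          ∃ (x₀ : X) (f : X → ℝ), Continuous f ∧
            ∀ k : ℕ, f ((⇑T)^[n k] x₀) = φ k := by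
  rintro n hn hg φ ⟨C, hC⟩
  have hC0 : 0 ≤ C := (abs_nonneg _).trans (hC 0)
  let θ : ℕ → ℝ := fun k => (φ k + C) / (4 * (C + 1))
  obtain ⟨ψ, hψ, hsum⟩ := exists_cocycle hn hg (fun k => θ (k + 1) - θ k)
  let y : ℝ := θ 0 - ∑ j ∈ range (n 0), ψ j
  have hkey : ∀ k, ∃ z : ℤ, y + ∑ j ∈ range (n k), ψ j = θ k + z := by
    intro k
    induction k with
    | zero => exact ⟨0, by simp [y]⟩
    | succ k ih =>
      obtain ⟨z, hz⟩ := ih
      obtain ⟨w, hw⟩ := hsum k
      refine ⟨z + w, ?_⟩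
      rw [← sum_range_add_sum_Ico _ (hn.monotone (Nat.le_succ k)), ← add_assoc, hz, hw]
      push_cast
      ring
  refine ⟨ℤ_[2] × UnitAddCircle, inferInstance, inferInstance, skew ψ hψ, skew_distal ψ hψ,
    (0, (y : UnitAddCircle)), fun p => 4 * (C + 1) * ‖p.2‖ - C, by fun_prop, ?_⟩
  intro k
  rw [skew_iterate]
  obtain ⟨z, hz⟩ := hkey k
  have hcoe : ((y + ∑ j ∈ range (n k), ψ j : ℝ) : UnitAddCircle) = ((θ k : ℝ) : UnitAddCircle) := by
    have hz0 : (((z : ℤ) : ℝ) : UnitAddCircle) = 0 :=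
      (AddCircle.coe_eq_zero_iff (1 : ℝ)).mpr ⟨z, by simp⟩
    rw [hz, AddCircle.coe_add, hz0, add_zero]
  have hpos : 0 < 4 * (C + 1) := by positivity
  have hk := abs_le.mp (hC k)
  have h0 : 0 ≤ θ k := div_nonneg (by linarith [hk.1]) hpos.le
  have h1 : θ k ≤ 1 / 2 := by
    simp only [θ]
    rw [div_le_iff₀ hpos]
    linarith [hk.2]
  have hnorm : ‖((θ k : ℝ) : UnitAddCircle)‖ = θ k := by
    rw [(AddCircle.norm_coe_eq_abs_iff (1 : ℝ) one_ne_zero).mpr
      (by rw [abs_of_nonneg h0, abs_one]; exact h1), abs_of_nonneg h0]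
  simp only
  rw [hcoe, hnorm]
  simp only [θ]
  field_simp
  ring

end Pool.Agent.S06401
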