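import Pool.Statements.S06588
import Pool.Agent.Lib.MP_eccbcf_an.Surf
import Pool.Agent.Lib.MP_eccbcf_an.Data
import Pool.Agent.Lib.MP_eccbcf_an.Domain
import Pool.Agent.Lib.MP_eccbcf_an.Hull
import Pool.Agent.Lib.MP_eccbcf_an.NoStein
import Pool.Agent.Lib.MP_eccbcf_an.Supp

set_option autoImplicit false
open Pool Pool.MP_eccbcf_an

namespace Pool.Agent.S06588

open Pool.Agent.Lib.MP_eccbcf_an in
/-- The negation of the preceding statement: For n ≥ 1, if Ω ⊂ ℂⁿ is a bounded, smoothly bounded, pseudoconvex (holomorphically convex) domain whose hulls from continuous psh functions meet ∂Ω only in K∩∂Ω, then every open U ⊇ Ω̄ contains a holomorphically convex open V ⊇ Ω̄. -/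
theorem result :
    ¬ (∀ n : ℕ, 1 ≤ n → ∀ Ω : Set (Fin n → ℂ),
    IsOpen Ω → IsConnected Ω → Bornology.IsBounded Ω →
    (∃ ρ : (Fin n → ℂ) → ℝ, ContDiff ℝ ((⊤ : ℕ∞) : WithTop ℕ∞) ρ ∧
        Ω = {z | ρ z < 0} ∧ ∀ z, ρ z = 0 → fderiv ℝ ρ z ≠ 0) →
    (∀ K ⊆ Ω, IsCompact K →
      IsCompact {z ∈ Ω | ∀ f : (Fin n → ℂ) → ℂ, DifferentiableOn ℂ f Ω →
        ∀ c : ℝ, (∀ w ∈ K, ‖f w‖ ≤ c) → ‖f z‖ ≤ c}) →
    (∀ K ⊆ closure Ω, IsCompact K →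
      {z ∈ closure Ω | ∀ φ : (Fin n → ℂ) → ℝ, ContinuousOn φ (closure Ω) →
          (∀ a ∈ Ω, ∀ b : Fin n → ℂ, ∀ r : ℝ, 0 ≤ r →
              (∀ ζ : ℂ, ‖ζ‖ ≤ r → a + ζ • b ∈ Ω) →
              φ a ≤ (2 * Real.pi)⁻¹ * ∫ θ in (0:ℝ)..(2 * Real.pi),
                φ (a + ((r : ℂ) * Complex.exp ((θ : ℂ) * Complex.I)) • b)) →
          ∀ c : ℝ, (∀ w ∈ K, φ w ≤ c) → φ z ≤ c} ∩ frontier Ω
        = K ∩ frontier Ω) →
    ∀ U : Set (Fin n → ℂ), IsOpen U → closure Ω ⊆ U →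
      ∃ V : Set (Fin n → ℂ), IsOpen V ∧ closure Ω ⊆ V ∧ V ⊆ U ∧
        ∀ K ⊆ V, IsCompact K →
          IsCompact {z ∈ V | ∀ f : (Fin n → ℂ) → ℂ, DifferentiableOn ℂ f V →
            ∀ c : ℝ, (∀ w ∈ K, ‖f w‖ ≤ c) → ‖f z‖ ≤ c}) := by
  intro H
  obtain ⟨g, hB⟩ := exists_base fun _ => exists_sub
  obtain ⟨η, e, Ψ, h⟩ := exists_psi hB.smooth hB.zero
  obtain ⟨U, hU, hc, hV⟩ := no_stein hB h
  obtain ⟨V, h1, h2, h3, h4⟩ := H 3 (by norm_num) {q | rho Ψ q < 0} (isOpen_dom h)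
    (isConnected_dom h) ((isCompact_cl h).isBounded.subset fun q hq => le_of_lt (α := ℝ) hq)
    ⟨rho Ψ, contDiff_rho h, rfl, fderiv_rho_ne h⟩ (holConvex_dom h (suppAll hB h))
    (hullCond_dom h (suppAll hB h) (suppZero hB h)) U hU hc
  exact hV V h1 h2 h3 h4

end Pool.Agent.S06588
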