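import Pool.Statements.S06778
import Pool.Agent.Lib.MP_f99ede_an.H80Main

set_option autoImplicit false
open Pool Pool.MP_f99ede_an

namespace Pool.Agent.S06778

/-- The negation of the preceding statement: Every infinite-dimensional subspace of real L1[0,1] that has a continuous linear projection onto it is isomorphic, via a continuous linear equivalence, either to L1[0,1] or to the sequence space l1. -/
theorem result :
    ¬ (∀ X : Submodule ℝ
        (MeasureTheory.Lp ℝ 1 (MeasureTheory.volume.restrict (Set.Icc (0:ℝ) 1))),
      X.ClosedComplemented →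
      ¬ FiniteDimensional ℝ X →
      Nonempty (X ≃L[ℝ]
          MeasureTheory.Lp ℝ 1 (MeasureTheory.volume.restrict (Set.Icc (0:ℝ) 1))) ∨
        Nonempty (X ≃L[ℝ] lp (fun _ : ℕ => ℝ) 1)) := by
  intro h
  obtain ⟨X, h1, h2, h3, h4⟩ := Pool.Agent.Lib.MP_f99ede_an.main
  exact (h X h1 h2).elim h3 h4

end Pool.Agent.S06778
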