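import Pool.Statements.S07028
import Pool.Agent.Lib.MP_0813d6_co.Rainbow

set_option autoImplicit false
open Pool Pool.MP_0813d6_co

namespace Pool.Agent.S07028

/-- The negation of the preceding statement: For r at least 2: if finite r-partite hypergraphs H_1..H_m on a common partition have union over any nonempty I with cover number above (2r-2)(∣I∣-1), then one can pick an edge from each H_i, all pairwise vertex-disjoint. -/
theorem result :
    ¬ (∀ (r m : ℕ), 2 ≤ r →
      ∀ H : Fin m → Finset (Fin r → ℕ),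
        (∀ I : Finset (Fin m), I.Nonempty →
          ∀ C : Finset (Fin r × ℕ),
            (∀ e ∈ I.biUnion H, ∃ k : Fin r, (k, e k) ∈ C) →
              (2 * r - 2) * (I.card - 1) < C.card) →
        ∃ f : Fin m → (Fin r → ℕ),
          (∀ i, f i ∈ H i) ∧
          ∀ i j : Fin m, i ≠ j → ∀ k : Fin r, f i k ≠ f j k) := by
  intro h
  obtain ⟨r, A, B, hr, hA, hB, hcross, hcov⟩ :=
    Pool.Agent.Lib.MP_0813d6_co.exists_counterexample
  have hne : ∀ i : Fin 2, ((![A, B] : Fin 2 → Finset (Fin r → ℕ)) i).Nonempty := by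
    intro i
    fin_cases i
    · exact hA
    · exact hB
  obtain ⟨f, hf, hdis⟩ := h r 2 hr ![A, B] (by
    intro I hI C hC
    by_cases hcard : I.card = 2
    · have hU : I = Finset.univ := Finset.eq_univ_of_card I (by simpa using hcard)
      subst hU
      have h1 := hcov C
        (fun e he => hC e (Finset.mem_biUnion.2 ⟨0, Finset.mem_univ _, he⟩))
        (fun e he => hC e (Finset.mem_biUnion.2 ⟨1, Finset.mem_univ _, he⟩))
      rw [hcard]
      omega
    · have h1 : I.card ≤ 2 := by simpa using Finset.card_le_univ I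
      have h2 : I.card - 1 = 0 := by omega
      obtain ⟨i, hi⟩ := hI
      obtain ⟨e, he⟩ := hne i
      obtain ⟨k, hk⟩ := hC e (Finset.mem_biUnion.2 ⟨i, hi, he⟩)
      rw [h2, mul_zero]
      exact Finset.card_pos.2 ⟨_, hk⟩)
  obtain ⟨k, hk⟩ := hcross (f 0) (hf 0) (f 1) (hf 1)
  exact hdis 0 1 (by decide) k hk

end Pool.Agent.S07028
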