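import Pool.Statements.S07227
import Pool.Agent.Lib.MP_1024aa_co.All

set_option autoImplicit false
open Pool Pool.MP_1024aa_co

namespace Pool.Agent.S07227

/-- For every n ≥ 4, in the game where players alternately claim edges of K_n, Player 1 one per turn first and Player 2 two per turn (or all remaining), Player 2 has a strategy ensuring the clique number of her graph exceeds that of Player 1's. -/
theorem result :
    ∀ n : ℕ, 4 ≤ n →
    ∀ E : Finset (Sym2 (Fin n)), (∀ e : Sym2 (Fin n), e ∈ E ↔ ¬ e.IsDiag) →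
    ∃ S : Set (Finset (Sym2 (Fin n)) × Finset (Sym2 (Fin n))),
      ((∅ : Finset (Sym2 (Fin n))), (∅ : Finset (Sym2 (Fin n)))) ∈ S ∧
      ∀ p ∈ S,
        (p.1 ∪ p.2 = E →
          ∃ k : ℕ, ¬ (SimpleGraph.fromEdgeSet (p.2 : Set (Sym2 (Fin n)))).CliqueFree k ∧
            (SimpleGraph.fromEdgeSet (p.1 : Set (Sym2 (Fin n)))).CliqueFree k) ∧
        (∀ e ∈ E, e ∉ p.1 → e ∉ p.2 →
          (insert e p.1 ∪ p.2 = E →
            ∃ k : ℕ, ¬ (SimpleGraph.fromEdgeSet (p.2 : Set (Sym2 (Fin n)))).CliqueFree k ∧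
              (SimpleGraph.fromEdgeSet ((insert e p.1 : Finset (Sym2 (Fin n))) :
                Set (Sym2 (Fin n)))).CliqueFree k) ∧
          (insert e p.1 ∪ p.2 ≠ E →
            ∃ T : Finset (Sym2 (Fin n)), T ⊆ E ∧ Disjoint T (insert e p.1 ∪ p.2) ∧
              T.card = min 2 (E.card - (insert e p.1 ∪ p.2).card) ∧
              (insert e p.1, p.2 ∪ T) ∈ S)) :=
  fun n hn E hE => Pool.Agent.Lib.MP_1024aa_co.all_n n hn E hE

end Pool.Agent.S07227
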