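import Pool.Statements.S07694
import Pool.Agent.Lib.MP_24d225_co.Drawing

set_option autoImplicit false
open Pool Pool.MP_24d225_co

namespace Pool.Agent.S07694

/-- The negation of the preceding statement: Some c<1 works for all simple topological graphs: any two faces of the planarization are joined by a chain of at most c times the number of edges of G steps, each step crossing an edge segment into an adjacent face. -/
theorem result :
    ¬ (∃ c : ℝ, c < 1 ∧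
      ∀ (V : Type) [Fintype V] (G : SimpleGraph V) (pos : V → ℝ × ℝ)
        (γ : V → V → unitInterval → ℝ × ℝ) (S : Set (ℝ × ℝ)),
        Function.Injective pos →
        (∀ u v, G.Adj u v →
          Continuous (γ u v) ∧ Function.Injective (γ u v) ∧
          γ u v 0 = pos u ∧ γ u v 1 = pos v ∧
          Set.range (γ u v) = Set.range (γ v u) ∧
          ∀ w, pos w ∈ Set.range (γ u v) → w = u ∨ w = v) →
        (∀ u v x y, G.Adj u v → G.Adj x y → s(u, v) ≠ s(x, y) →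
          (Set.range (γ u v) ∩ Set.range (γ x y)).Subsingleton ∧
          ∀ p ∈ Set.range (γ u v) ∩ Set.range (γ x y),
            (∃ w, pos w = p) ∨
            ((∀ w, pos w ≠ p) ∧
              ∃ φ : (ℝ × ℝ) ≃ₜ (ℝ × ℝ), φ p = 0 ∧
                ∀ q, ‖φ q‖ < 1 →
                  ((q ∈ Set.range (γ u v) ↔ (φ q).2 = 0) ∧
                   (q ∈ Set.range (γ x y) ↔ (φ q).1 = 0)))) →
        (∀ u₁ v₁ u₂ v₂ u₃ v₃, G.Adj u₁ v₁ → G.Adj u₂ v₂ → G.Adj u₃ v₃ →
          s(u₁, v₁) ≠ s(u₂, v₂) → s(u₁, v₁) ≠ s(u₃, v₃) → s(u₂, v₂) ≠ s(u₃, v₃) →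
          ∀ p, p ∈ Set.range (γ u₁ v₁) → p ∈ Set.range (γ u₂ v₂) →
            p ∈ Set.range (γ u₃ v₃) → ∃ w, pos w = p) →
        S = Set.range pos ∪ ⋃ u, ⋃ v, ⋃ (_ : G.Adj u v), Set.range (γ u v) →
        ∀ F F' : Set (ℝ × ℝ),
          (∃ z, z ∉ S ∧ F = connectedComponentIn Sᶜ z) →
          (∃ z, z ∉ S ∧ F' = connectedComponentIn Sᶜ z) →
          ∃ (n : ℕ) (f : ℕ → Set (ℝ × ℝ)),
            (n : ℝ) ≤ c * (G.edgeSet.ncard : ℝ) ∧ f 0 = F ∧ f n = F' ∧
            (∀ i ≤ n, ∃ z, z ∉ S ∧ f i = connectedComponentIn Sᶜ z) ∧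
            ∀ i < n, f i = f (i + 1) ∨
              ∃ p ∈ closure (f i) ∩ closure (f (i + 1)),
                p ∉ Set.range pos ∧
                ∃ u v, G.Adj u v ∧ p ∈ Set.range (γ u v) ∧
                  ∀ x y, G.Adj x y → p ∈ Set.range (γ x y) → s(x, y) = s(u, v)) := by
  rintro ⟨c, hc, H⟩
  obtain ⟨M, hM3, hM⟩ := Pool.Agent.Lib.MP_24d225_co.exists_size c hc
  have hN : 0 < M := by omega
  obtain ⟨n, f, h1, h2, h3, h4, h5⟩ := H (Pool.Agent.Lib.MP_24d225_co.Vx M)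
    (Pool.Agent.Lib.MP_24d225_co.Gr M) (Pool.Agent.Lib.MP_24d225_co.ps M hN)
    (Pool.Agent.Lib.MP_24d225_co.gam M hN) (Pool.Agent.Lib.MP_24d225_co.drawing M hN)
    (Pool.Agent.Lib.MP_24d225_co.ps_inj hN) (Pool.Agent.Lib.MP_24d225_co.edge_ok hN)
    (Pool.Agent.Lib.MP_24d225_co.pair_ok hN) (Pool.Agent.Lib.MP_24d225_co.triple_ok hN) rfl
    _ _ ⟨_, Pool.Agent.Lib.MP_24d225_co.zero_not_mem hN, rfl⟩
    ⟨_, Pool.Agent.Lib.MP_24d225_co.far_not_mem hN, rfl⟩
  have h6 := Pool.Agent.Lib.MP_24d225_co.chain_long hN n f h2 h3 h4 h5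
  exact hM n _ h6 (Pool.Agent.Lib.MP_24d225_co.edge_count M) h1

end Pool.Agent.S07694
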