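import Pool.Statements.S08852
import Pool.Agent.Lib.MP_571698_co.Main

set_option autoImplicit false
open Pool Pool.MP_571698_co

namespace Pool.Agent.S08852

/-- The negation of the preceding statement: For every connected graph G on q ≥ 2 vertices, the metric dimension of the n-th Cartesian power of G, multiplied by log base q of n and divided by n, tends to 2 as n tends to infinity. -/
theorem result :
    ¬ (∀ q : ℕ, 2 ≤ q → ∀ G : SimpleGraph (Fin q), G.Connected →
      Filter.Tendsto
        (fun n : ℕ =>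
          ((sInf {k : ℕ | ∃ S : Finset (Fin n → Fin q), S.card = k ∧
              ∀ x y : Fin n → Fin q, x ≠ y → ∃ s ∈ S,
                (SimpleGraph.fromRel (fun a b : Fin n → Fin q =>
                    ∃ i : Fin n, G.Adj (a i) (b i) ∧ ∀ j : Fin n, j ≠ i → a j = b j)).dist x s ≠
                (SimpleGraph.fromRel (fun a b : Fin n → Fin q =>
                    ∃ i : Fin n, G.Adj (a i) (b i) ∧ ∀ j : Fin n, j ≠ i → a j = b j)).dist y s} : ℕ) : ℝ)
            * Real.logb (q : ℝ) (n : ℝ) / (n : ℝ))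
        Filter.atTop (nhds 2)) := by
  open Pool.Agent.Lib.MP_571698_co in
  intro h
  have h1 := h 29 (by norm_num) GG GG_connected
  simp only [dist_power GG (fun a b => ham a b) (fun s => ham_self s s.2) GG_lip GG_step] at h1
  refine not_tendsto 29 WW (3 * Real.exp ((1 + ((5 * 10000 : ℕ) : ℝ) ^ 2) / 2)) (by norm_num)
    WW_gt (by positivity) _ (fun n hn => ?_) h1
  have hne : {k : ℕ | ∃ S : Finset (Fin n → Fin 29), S.card = k ∧
      ∀ x y : Fin n → Fin 29, x ≠ y → ∃ s ∈ S,
        ∑ k, ham (x k) (s k) ≠ ∑ k, ham (y k) (s k)}.Nonempty := by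
    refine ⟨_, Finset.univ, rfl, fun x y hxy => ⟨y, Finset.mem_univ _, ?_⟩⟩
    obtain ⟨i, hi⟩ := Function.ne_iff.mp hxy
    obtain ⟨b, -, hb⟩ := GG_step (y i) (x i) hi
    have h2 : ∑ k, ham (y k) (y k) = 0 := Finset.sum_eq_zero fun k _ => ham_self _ (y k).2
    have h3 : ham (x i) (y i) ≤ ∑ k, ham (x k) (y k) :=
      Finset.single_le_sum (f := fun k => ham (x k) (y k)) (fun _ _ => Nat.zero_le _)
        (Finset.mem_univ i)
    omega
  obtain ⟨S, hS, hres⟩ := Nat.sInf_mem hne
  rw [← hS]
  exact resolving_bound n hn S hres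

end Pool.Agent.S08852
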