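import Pool.Statements.S09763
import Pool.Agent.Lib.MP_80d9dd_co.Data

set_option autoImplicit false
open Pool Pool.MP_80d9dd_co

namespace Pool.Agent.S09763

/-- For every prime n there is a Jordan curve whose n rotations by 2πi/n about a point form a Venn diagram: all 2^n regions nonempty and connected, finitely many intersections, no triple points, and every intersection a genuine crossing. -/
theorem result : ∀ n : ℕ, n.Prime →
    ∃ (γ : ℝ → ℂ) (c : ℂ) (K Ins Out : Fin n → Set ℂ),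
      Continuous γ ∧ Function.Periodic γ 1 ∧ Set.InjOn γ (Set.Ico 0 1) ∧
      (∀ i : Fin n, K i = Set.range (fun t : ℝ =>
          c + Complex.exp (2 * (Real.pi : ℂ) * Complex.I * ((i : ℕ) : ℂ) / (n : ℂ)) * (γ t - c))) ∧
      (∀ i : Fin n, Ins i = {p : ℂ | p ∉ K i ∧ Bornology.IsBounded (connectedComponentIn (K i)ᶜ p)}) ∧
      (∀ i : Fin n, Out i = {p : ℂ | p ∉ K i ∧ ¬ Bornology.IsBounded (connectedComponentIn (K i)ᶜ p)}) ∧
      (∀ S : Finset (Fin n), IsConnected ((⋂ i ∈ S, Ins i) ∩ ⋂ i ∈ Sᶜ, Out i)) ∧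
      (∀ i j : Fin n, i ≠ j → (K i ∩ K j).Finite) ∧
      (∀ i j k : Fin n, i ≠ j → j ≠ k → i ≠ k → K i ∩ K j ∩ K k = ∅) ∧
      (∀ i j : Fin n, i ≠ j → ∀ p ∈ K i ∩ K j, ∀ U ∈ nhds p,
          (U ∩ Ins i ∩ Ins j).Nonempty ∧ (U ∩ Ins i ∩ Out j).Nonempty ∧
          (U ∩ Out i ∩ Ins j).Nonempty ∧ (U ∩ Out i ∩ Out j).Nonempty) := by
  intro n hn
  rcases hn.eq_two_or_odd' with rfl | hodd
  · obtain ⟨M, g, h, h1, h2, h3, h4, h5, h6⟩ := Pool.Agent.Lib.MP_80d9dd_co.wires_two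
    exact Pool.Agent.Lib.MP_80d9dd_co.venn_of_wires 2 M two_pos h1 g h2 h h3 h4 h5 h6
  · obtain ⟨k, hk⟩ := hodd
    have h2 := hn.two_le
    obtain ⟨M, g, h, h1, h2, h3, h4, h5, h6⟩ :=
      Pool.Agent.Lib.MP_80d9dd_co.wires_odd n (k - 1) hn (by omega)
    exact Pool.Agent.Lib.MP_80d9dd_co.venn_of_wires n M hn.pos h1 g h2 h h3 h4 h5 h6

end Pool.Agent.S09763
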