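import Pool.Statements.S09884
import Pool.Agent.Lib.MP_866d96_co.Obstruction

set_option autoImplicit false
open Pool Pool.MP_866d96_co

namespace Pool.Agent.S09884

/-- The negation of the preceding statement: Every full-dimensional polytope in R^d whose face lattice is anti-isomorphic to itself has a combinatorially equivalent polytope Q, with the origin in its interior, whose polar set equals the image of Q under some orthogonal map. -/
theorem result :
    ¬ (∀ (d : ℕ) (S : Finset (EuclideanSpace ℝ (Fin d))),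
      (interior (convexHull ℝ (S : Set (EuclideanSpace ℝ (Fin d))))).Nonempty →
      Nonempty ({F : Set (EuclideanSpace ℝ (Fin d)) //
                  IsExposed ℝ (convexHull ℝ (S : Set (EuclideanSpace ℝ (Fin d)))) F} ≃o
                ({F : Set (EuclideanSpace ℝ (Fin d)) //
                  IsExposed ℝ (convexHull ℝ (S : Set (EuclideanSpace ℝ (Fin d)))) F})ᵒᵈ) →
      ∃ (T : Finset (EuclideanSpace ℝ (Fin d)))
        (U : EuclideanSpace ℝ (Fin d) ≃ₗᵢ[ℝ] EuclideanSpace ℝ (Fin d)),
        Nonempty ({F : Set (EuclideanSpace ℝ (Fin d)) //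
                    IsExposed ℝ (convexHull ℝ (S : Set (EuclideanSpace ℝ (Fin d)))) F} ≃o
                  {F : Set (EuclideanSpace ℝ (Fin d)) //
                    IsExposed ℝ (convexHull ℝ (T : Set (EuclideanSpace ℝ (Fin d)))) F}) ∧
        (0 : EuclideanSpace ℝ (Fin d)) ∈
          interior (convexHull ℝ (T : Set (EuclideanSpace ℝ (Fin d)))) ∧
        {y : EuclideanSpace ℝ (Fin d) |
            ∀ x ∈ convexHull ℝ (T : Set (EuclideanSpace ℝ (Fin d))), inner ℝ x y ≤ (1 : ℝ)} =
          U '' convexHull ℝ (T : Set (EuclideanSpace ℝ (Fin d)))) := by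
  classical
  intro H
  have hS : ((Finset.univ.image Lib.MP_866d96_co.pP : Finset (EuclideanSpace ℝ (Fin 4))) :
      Set (EuclideanSpace ℝ (Fin 4))) = Set.range Lib.MP_866d96_co.pP := by simp
  have hH := Lib.MP_866d96_co.rzP.complete Lib.MP_866d96_co.mask _ Lib.MP_866d96_co.chk_mask
    (fun _ _ => Iff.rfl)
  have H4 := H 4 (Finset.univ.image Lib.MP_866d96_co.pP)
  rw [hS] at H4
  obtain ⟨T, U, ⟨ψ⟩, h0, hU⟩ := H4
    (Lib.MP_866d96_co.rzP.interior_nonempty hH Lib.MP_866d96_co.fac_off)
    (Lib.MP_866d96_co.rzP.self_dual hH Lib.MP_866d96_co.vert_off Lib.MP_866d96_co.s0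
      Lib.MP_866d96_co.s1 Lib.MP_866d96_co.dual01 Lib.MP_866d96_co.s0_surj
      Lib.MP_866d96_co.s1_surj)
  obtain ⟨q, y, h, hq, hy⟩ := Lib.MP_866d96_co.rzP.transfer Lib.MP_866d96_co.vert_sep
    Lib.MP_866d96_co.fac_off Lib.MP_866d96_co.fac_on h0 ψ
  exact Lib.MP_866d96_co.not_self_polar h hq hy U hU

end Pool.Agent.S09884
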