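import Pool.Statements.S10592
import Pool.Agent.Lib.MP_a5a405_co.Main
import Pool.Agent.Lib.MP_a5a405_co.NotPow

set_option autoImplicit false
open Pool Pool.MP_a5a405_co

namespace Pool.Agent.S10592

/-- Counterexample with k = 1 and n = 8: the equation 16 x + 17 y = w z ^ 8 is partition regular,
while none of 16, 17, 33 is the eighth power of a rational number. -/
theorem result :
    ¬ (∀ (k : ℕ) (a b c : Fin k → ℤ) (n : ℕ),
      (∀ i, a i ≠ 0 ∧ b i ≠ 0 ∧ c i ≠ 0) → 1 ≤ n →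
      ((∀ (r : ℕ) (χ : ℤ → Fin r), ∃ (x y w z : Fin k → ℤ) (col : Fin r),
          ∀ i, x i ≠ 0 ∧ y i ≠ 0 ∧ w i ≠ 0 ∧ z i ≠ 0 ∧
            a i * x i + b i * y i = c i * w i * z i ^ n ∧
            χ (x i) = col ∧ χ (y i) = col ∧ χ (w i) = col ∧ χ (z i) = col) ↔
        ∃ q : ℚ, ∀ i, q ^ n = (a i : ℚ) / (c i : ℚ) ∨ q ^ n = (b i : ℚ) / (c i : ℚ) ∨
          q ^ n = ((a i : ℚ) + (b i : ℚ)) / (c i : ℚ))) := by
  intro h
  obtain ⟨q, hq⟩ := (h 1 (fun _ => 16) (fun _ => 17) (fun _ => 1) 8 (by simp) (by norm_num)).1 (by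
    intro r χ
    obtain ⟨x, y, w, z, hx, hy, hw, hz, he, h1, h2, h3⟩ :=
      Pool.Agent.Lib.MP_a5a405_co.PR.partition_regular r fun n => χ n
    refine ⟨fun _ => x, fun _ => y, fun _ => w, fun _ => z, χ z, fun _ =>
      ⟨Int.natCast_ne_zero.2 hx.ne', Int.natCast_ne_zero.2 hy.ne', Int.natCast_ne_zero.2 hw.ne',
        Int.natCast_ne_zero.2 hz.ne', ?_, h1, h2, h3, rfl⟩⟩
    dsimp only
    rw [one_mul]
    exact_mod_cast he)
  rcases hq 0 with h1 | h1 | h1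
  · exact Pool.Agent.Lib.MP_a5a405_co.PR.not_pow_eight (c := 16) (by norm_num) (by norm_num)
      (by rw [h1]; norm_num)
  · exact Pool.Agent.Lib.MP_a5a405_co.PR.not_pow_eight (c := 17) (by norm_num) (by norm_num)
      (by rw [h1]; norm_num)
  · exact Pool.Agent.Lib.MP_a5a405_co.PR.not_pow_eight (c := 33) (by norm_num) (by norm_num)
      (by rw [h1]; norm_num)

end Pool.Agent.S10592
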