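import Pool.Statements.S10863
import Pool.Agent.Lib.MP_b1882c_co.Bridge

set_option autoImplicit false
open Pool Pool.MP_b1882c_co

namespace Pool.Agent.S10863

/-- No finite set of points and lines in the Euclidean plane, with 5 lines through each point and 5 points on each line, has an isometric symmetry group with exactly 3 orbits on points and exactly 3 orbits on lines. -/
theorem result :
    ∀ (P : Set (EuclideanSpace ℝ (Fin 2)))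
      (Ls : Set (AffineSubspace ℝ (EuclideanSpace ℝ (Fin 2))))
      (G : Set (EuclideanSpace ℝ (Fin 2) ≃ᵢ EuclideanSpace ℝ (Fin 2))),
      P.Finite → Ls.Finite →
      (∀ L ∈ Ls, Module.finrank ℝ L.direction = 1) →
      (∀ p ∈ P, {L ∈ Ls | p ∈ L}.ncard = 5) →
      (∀ L ∈ Ls, {p ∈ P | p ∈ L}.ncard = 5) →
      (∀ g : EuclideanSpace ℝ (Fin 2) ≃ᵢ EuclideanSpace ℝ (Fin 2),
        g ∈ G ↔ ((⇑g) '' P = P ∧
          ∀ L ∈ Ls, ∃ M ∈ Ls, (⇑g) '' (L : Set (EuclideanSpace ℝ (Fin 2))) =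
            (M : Set (EuclideanSpace ℝ (Fin 2))))) →
      ¬ ((∃ p₁ ∈ P, ∃ p₂ ∈ P, ∃ p₃ ∈ P,
            (¬ ∃ g : EuclideanSpace ℝ (Fin 2) ≃ᵢ EuclideanSpace ℝ (Fin 2),
                g ∈ G ∧ g p₁ = p₂) ∧
            (¬ ∃ g : EuclideanSpace ℝ (Fin 2) ≃ᵢ EuclideanSpace ℝ (Fin 2),
                g ∈ G ∧ g p₁ = p₃) ∧
            (¬ ∃ g : EuclideanSpace ℝ (Fin 2) ≃ᵢ EuclideanSpace ℝ (Fin 2),
                g ∈ G ∧ g p₂ = p₃) ∧
            ∀ p ∈ P, ∃ g : EuclideanSpace ℝ (Fin 2) ≃ᵢ EuclideanSpace ℝ (Fin 2),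
                g ∈ G ∧ (g p₁ = p ∨ g p₂ = p ∨ g p₃ = p)) ∧
         (∃ L₁ ∈ Ls, ∃ L₂ ∈ Ls, ∃ L₃ ∈ Ls,
            (¬ ∃ g : EuclideanSpace ℝ (Fin 2) ≃ᵢ EuclideanSpace ℝ (Fin 2),
                g ∈ G ∧ (⇑g) '' (L₁ : Set (EuclideanSpace ℝ (Fin 2))) =
                  (L₂ : Set (EuclideanSpace ℝ (Fin 2)))) ∧
            (¬ ∃ g : EuclideanSpace ℝ (Fin 2) ≃ᵢ EuclideanSpace ℝ (Fin 2),
                g ∈ G ∧ (⇑g) '' (L₁ : Set (EuclideanSpace ℝ (Fin 2))) =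
                  (L₃ : Set (EuclideanSpace ℝ (Fin 2)))) ∧
            (¬ ∃ g : EuclideanSpace ℝ (Fin 2) ≃ᵢ EuclideanSpace ℝ (Fin 2),
                g ∈ G ∧ (⇑g) '' (L₂ : Set (EuclideanSpace ℝ (Fin 2))) =
                  (L₃ : Set (EuclideanSpace ℝ (Fin 2)))) ∧
            ∀ L ∈ Ls, ∃ g : EuclideanSpace ℝ (Fin 2) ≃ᵢ EuclideanSpace ℝ (Fin 2),
              g ∈ G ∧
              ((⇑g) '' (L₁ : Set (EuclideanSpace ℝ (Fin 2))) =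
                  (L : Set (EuclideanSpace ℝ (Fin 2))) ∨
               (⇑g) '' (L₂ : Set (EuclideanSpace ℝ (Fin 2))) =
                  (L : Set (EuclideanSpace ℝ (Fin 2))) ∨
               (⇑g) '' (L₃ : Set (EuclideanSpace ℝ (Fin 2))) =
                  (L : Set (EuclideanSpace ℝ (Fin 2)))))) := by
  intro P Ls G hP _ h1 h2 h3 hG
  rintro ⟨⟨p₁, hp₁, p₂, hp₂, p₃, hp₃, -, -, -, op⟩, ⟨L₁, hL₁, L₂, hL₂, L₃, hL₃, -, -, -, oL⟩⟩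
  refine Pool.Agent.Lib.MP_b1882c_co.euclid_false Complex.orthonormalBasisOneI.repr.symm P Ls G hP
    h1 h2 h3 (fun g hg => ((hG g).1 hg).1) (fun g hg => ((hG g).1 hg).2) ![p₁, p₂, p₃] ?_ ?_
    ![L₁, L₂, L₃] ?_ ?_
  · intro i
    fin_cases i
    exacts [hp₁, hp₂, hp₃]
  · intro q hq
    obtain ⟨g, hg, h | h | h⟩ := op q hq
    exacts [⟨0, g, hg, h⟩, ⟨1, g, hg, h⟩, ⟨2, g, hg, h⟩]
  · intro i
    fin_cases i
    exacts [hL₁, hL₂, hL₃]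
  · intro M hM
    obtain ⟨g, hg, h | h | h⟩ := oL M hM
    exacts [⟨0, g, hg, h⟩, ⟨1, g, hg, h⟩, ⟨2, g, hg, h⟩]

end Pool.Agent.S10863
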