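import Pool.Statements.S11017
import Pool.Agent.Lib.MP_b893bf_co.Main

set_option autoImplicit false
open Pool Pool.MP_b893bf_co

namespace Pool.Agent.S11017

/-- There are constants c, d such that every finite graph with a plane drawing in which each edge has at most k crossings also has a simple drawing (edges meet at most once, adjacent edges never cross) with at most c·k^d + c crossings per edge. -/
theorem result :
    ∃ c d : ℕ, ∀ (V : Type) [Fintype V] [DecidableEq V] (G : SimpleGraph V) [DecidableRel G.Adj] (k : ℕ),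
      (∃ (pos : V → EuclideanSpace ℝ (Fin 2)) (arc : Sym2 V → ℝ → EuclideanSpace ℝ (Fin 2)),
        Function.Injective pos ∧
        (∀ u v, G.Adj u v →
          ContinuousOn (arc s(u, v)) (Set.Icc 0 1) ∧ Set.InjOn (arc s(u, v)) (Set.Icc 0 1) ∧
          ((arc s(u, v) 0 = pos u ∧ arc s(u, v) 1 = pos v) ∨
            (arc s(u, v) 0 = pos v ∧ arc s(u, v) 1 = pos u)) ∧
          ∀ w, ∀ t ∈ Set.Ioo (0:ℝ) 1, arc s(u, v) t ≠ pos w) ∧
        ∀ e ∈ G.edgeFinset,
          ∑ f ∈ G.edgeFinset.erase e,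
            (arc e '' Set.Ioo (0:ℝ) 1 ∩ arc f '' Set.Ioo (0:ℝ) 1).encard ≤ (k : ℕ∞)) →
      (∃ (pos : V → EuclideanSpace ℝ (Fin 2)) (arc : Sym2 V → ℝ → EuclideanSpace ℝ (Fin 2)),
        Function.Injective pos ∧
        (∀ u v, G.Adj u v →
          ContinuousOn (arc s(u, v)) (Set.Icc 0 1) ∧ Set.InjOn (arc s(u, v)) (Set.Icc 0 1) ∧
          ((arc s(u, v) 0 = pos u ∧ arc s(u, v) 1 = pos v) ∨
            (arc s(u, v) 0 = pos v ∧ arc s(u, v) 1 = pos u)) ∧
          ∀ w, ∀ t ∈ Set.Ioo (0:ℝ) 1, arc s(u, v) t ≠ pos w) ∧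
        (∀ e ∈ G.edgeFinset,
          ∑ f ∈ G.edgeFinset.erase e,
            (arc e '' Set.Ioo (0:ℝ) 1 ∩ arc f '' Set.Ioo (0:ℝ) 1).encard ≤ ((c * k ^ d + c : ℕ) : ℕ∞)) ∧
        ∀ e ∈ G.edgeFinset, ∀ f ∈ G.edgeFinset, e ≠ f →
          (arc e '' Set.Ioo (0:ℝ) 1 ∩ arc f '' Set.Ioo (0:ℝ) 1).encard ≤ 1 ∧
          ((∃ w, w ∈ e ∧ w ∈ f) → arc e '' Set.Ioo (0:ℝ) 1 ∩ arc f '' Set.Ioo (0:ℝ) 1 = ∅)) := by
  classical
  obtain ⟨T, hT⟩ := Pool.Agent.Lib.MP_b893bf_co.redraw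
  refine ⟨4 * 2 ^ T, T, fun V _ _ G _ k ⟨pos, arc, inj, harc, hcr⟩ => ?_⟩
  let φ : EuclideanSpace ℝ (Fin 2) ≃ₜ ℝ × ℝ :=
    (EuclideanSpace.equiv (Fin 2) ℝ).toHomeomorph.trans (Homeomorph.finTwoArrow)
  have hd : ∀ e : G.edgeSet, ¬ (e : Sym2 V).IsDiag := fun e => G.not_isDiag_of_mem_edgeSet e.2
  have rep : ∀ e : G.edgeSet, ∃ u v, G.Adj u v ∧ (e : Sym2 V) = s(u, v) := by
    rintro ⟨e, he⟩
    induction e using Sym2.ind with
    | _ u v => exact ⟨u, v, he, rfl⟩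
  obtain ⟨B, D, H⟩ := Pool.Agent.Lib.MP_b893bf_co.exists_model (E := G.edgeSet) Subtype.val hd k
    (φ ∘ pos) (fun e => φ ∘ arc e) (φ.injective.comp inj) (by
      intro e
      obtain ⟨u, v, h, he⟩ := rep e
      rw [he]
      exact φ.continuous.comp_continuousOn (harc u v h).1) (by
      intro e
      obtain ⟨u, v, h, he⟩ := rep e
      rw [he]
      rcases (harc u v h).2.2.1 with h | h
      · exact ⟨u, v, rfl, congrArg φ h.1, congrArg φ h.2⟩
      · exact ⟨v, u, Sym2.eq_swap, congrArg φ h.1, congrArg φ h.2⟩) (by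
      intro e w t ht h'
      obtain ⟨u, v, h, he⟩ := rep e
      rw [he] at h'
      exact (harc u v h).2.2.2 w t ht (φ.injective h')) (by
      intro e
      let X : Finset (Sym2 V) := (G.edgeFinset.erase e).filter fun f =>
        (arc e '' Set.Ioo (0:ℝ) 1 ∩ arc f '' Set.Ioo (0:ℝ) 1).Nonempty
      have h1 : (X.card : ℕ∞) ≤ k := by
        refine le_trans ?_ (hcr e (by simp))
        refine le_trans ?_ (Finset.sum_le_sum_of_subset (Finset.filter_subset _ _) : ∑ f ∈ X, _ ≤ _)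
        rw [Finset.card_eq_sum_ones, Nat.cast_sum]
        exact Finset.sum_le_sum fun f hf => by
          simpa using Set.one_le_encard_iff_nonempty.2 (Finset.mem_filter.1 hf).2
      refine ⟨X.preimage Subtype.val Subtype.val_injective.injOn, ?_, ?_⟩
      · have h2 : (X.preimage (Subtype.val : G.edgeSet → Sym2 V)
            Subtype.val_injective.injOn).card ≤ X.card :=
          Finset.card_le_card_of_injOn Subtype.val (fun f hf => Finset.mem_preimage.1 hf)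
            Subtype.val_injective.injOn
        exact h2.trans (by exact_mod_cast h1)
      · rintro f hf ⟨z, ⟨s, hs, h2⟩, t, ht, h3⟩
        rw [Finset.mem_preimage]
        refine Finset.mem_filter.2 ⟨Finset.mem_erase.2 ⟨fun h => hf (Subtype.ext h),
          by simp⟩, arc e s, ⟨s, hs, rfl⟩, t, ht, φ.injective (h3.trans h2.symm)⟩)
  obtain ⟨pos', arc', a1, a2, a3, a4⟩ :=
    hT V G.edgeSet Subtype.val Subtype.val_injective hd k B D H
  let arc2 : Sym2 V → ℝ → EuclideanSpace ℝ (Fin 2) := fun s =>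
    if h : s ∈ G.edgeSet then φ.symm ∘ arc' ⟨s, h⟩ else fun _ => 0
  have e2 : ∀ s (h : s ∈ G.edgeSet), arc2 s = φ.symm ∘ arc' ⟨s, h⟩ := fun s h => dif_pos h
  have im : ∀ s (h : s ∈ G.edgeSet) s' (h' : s' ∈ G.edgeSet),
      arc2 s '' Set.Ioo (0:ℝ) 1 ∩ arc2 s' '' Set.Ioo (0:ℝ) 1 =
        φ.symm '' (arc' ⟨s, h⟩ '' Set.Ioo (0:ℝ) 1 ∩ arc' ⟨s', h'⟩ '' Set.Ioo (0:ℝ) 1) := by
    intro s h s' h'
    rw [e2 s h, e2 s' h', Set.image_comp, Set.image_comp, Set.image_inter φ.symm.injective]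
  have one : ∀ e ∈ G.edgeFinset, ∀ f ∈ G.edgeFinset, e ≠ f →
      (arc2 e '' Set.Ioo (0:ℝ) 1 ∩ arc2 f '' Set.Ioo (0:ℝ) 1).encard ≤ 1 := by
    intro e he f hf hef
    rw [SimpleGraph.mem_edgeFinset] at he hf
    rw [im e he f hf, Set.encard_le_one_iff_subsingleton]
    exact (a3 _ _ fun h => hef (congrArg Subtype.val h)).1.image _
  refine ⟨φ.symm ∘ pos', arc2, φ.symm.injective.comp a1, fun u v h => ?_, fun e he => ?_,
    fun e he f hf hef => ⟨one e he f hf hef, fun hw => ?_⟩⟩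
  · rw [e2 _ h]
    obtain ⟨b1, b2, ⟨u', v', b3, b4, b5⟩, b6⟩ := a2 ⟨s(u, v), h⟩
    refine ⟨(φ.symm.continuous.comp b1).continuousOn, φ.symm.injective.comp_injOn b2, ?_,
      fun w t ht h' => b6 w t ht (φ.symm.injective h')⟩
    rcases Sym2.eq_iff.1 b3 with ⟨rfl, rfl⟩ | ⟨rfl, rfl⟩
    · exact Or.inl ⟨congrArg φ.symm b4, congrArg φ.symm b5⟩
    · exact Or.inr ⟨congrArg φ.symm b4, congrArg φ.symm b5⟩
  · have he' := SimpleGraph.mem_edgeFinset.1 he
    obtain ⟨X, x1, x2⟩ := a4 ⟨e, he'⟩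
    have x3 : ∀ f ∈ G.edgeFinset.erase e,
        (arc2 e '' Set.Ioo (0:ℝ) 1 ∩ arc2 f '' Set.Ioo (0:ℝ) 1).encard ≤
          if f ∈ X.image Subtype.val then 1 else 0 := by
      intro f hf
      obtain ⟨hf1, hf2⟩ := Finset.mem_erase.1 hf
      split_ifs with h
      · exact one e he f hf2 hf1.symm
      · have hf' := SimpleGraph.mem_edgeFinset.1 hf2
        rw [im e he' f hf', nonpos_iff_eq_zero, Set.encard_eq_zero, Set.image_eq_empty]
        by_contra hne
        exact h (Finset.mem_image.2 ⟨⟨f, hf'⟩, x2 _ (fun h => hf1 (congrArg Subtype.val h))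
          (Set.nonempty_iff_ne_empty.2 hne), rfl⟩)
    refine (Finset.sum_le_sum x3).trans ?_
    rw [Finset.sum_boole, Nat.cast_le]
    refine (Finset.card_le_card fun f hf => (Finset.mem_filter.1 hf).2).trans
      (Finset.card_image_le.trans (x1.trans ?_))
    have x4 : (k + 1) ^ T ≤ 2 ^ T * (k ^ T + 1) := by
      rcases Nat.eq_zero_or_pos k with rfl | hk
      · rw [zero_add, one_pow]
        exact Nat.mul_pos (Nat.two_pow_pos T) (Nat.succ_pos _)
      · calc (k + 1) ^ T ≤ (2 * k) ^ T := Nat.pow_le_pow_left (by omega) _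
          _ = 2 ^ T * k ^ T := mul_pow _ _ _
          _ ≤ _ := Nat.mul_le_mul_left _ (Nat.le_succ _)
    calc 4 * (k + 1) ^ T ≤ 4 * (2 ^ T * (k ^ T + 1)) := Nat.mul_le_mul_left _ x4
      _ = _ := by ring
  · rw [SimpleGraph.mem_edgeFinset] at he hf
    rw [im e he f hf, (a3 _ _ fun h => hef (congrArg Subtype.val h)).2 hw, Set.image_empty]

end Pool.Agent.S11017
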