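import Pool.Statements.S11110
import Pool.Agent.Lib.MP_bc94b4_co.Ch.Fin
import Pool.Agent.Lib.MP_bc94b4_co.Ch.Top

set_option autoImplicit false
open Pool Pool.MP_bc94b4_co

namespace Pool.Agent.S11110

/-- The negation of the preceding statement: For every d ≥ 4, the largest acute point set in R^d has the same size as the largest set where every pair x, y has a direction uniquely maximized at x and uniquely minimized at y over the set (a 0-antipodal polytope's vertices). -/
theorem result :
    ¬ (∀ d : ℕ, 4 ≤ d →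
      sSup {n : ℕ | ∃ S : Finset (EuclideanSpace ℝ (Fin d)), S.card = n ∧
        ∀ a ∈ S, ∀ b ∈ S, ∀ c ∈ S, a ≠ b → b ≠ c → a ≠ c →
          EuclideanGeometry.angle a b c < Real.pi / 2}
      =
      sSup {n : ℕ | ∃ S : Finset (EuclideanSpace ℝ (Fin d)), S.card = n ∧
        ∀ x ∈ S, ∀ y ∈ S, x ≠ y →
          ∃ u : EuclideanSpace ℝ (Fin d), ∀ z ∈ S,
            (z ≠ x → inner ℝ u z < inner ℝ u x) ∧
            (z ≠ y → inner ℝ u y < inner ℝ u z)}) := by
  exact AcuteCh.top AcuteCh.no_ten

end Pool.Agent.S11110
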