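import Pool.Statements.S11642
import Pool.Agent.Lib.MP_d2e2bc_co.Main

set_option autoImplicit false
open Pool Pool.MP_d2e2bc_co

namespace Pool.Agent.S11642

/-- The negation of the preceding statement: Some finite field of order 2^n has a function f such that x ↦ f(x+e)+f(x)+ex is a bijection for every nonzero e. Moreover, f is not equal, as a function, to a constant plus a Dembowski–Ostrom polynomial (a sum of terms a·x^(2^i+2^j)). -/
theorem result :
    ¬ (∃ n : ℕ, ∃ f : GaloisField 2 n → GaloisField 2 n,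
      (∀ ε : GaloisField 2 n, ε ≠ 0 →
        Function.Bijective (fun x : GaloisField 2 n => f (x + ε) + f x + ε * x)) ∧
      ¬ ∃ (S : Finset (ℕ × ℕ)) (a : ℕ × ℕ → GaloisField 2 n) (c : GaloisField 2 n),
          ∀ x : GaloisField 2 n, f x = c + ∑ p ∈ S, a p * x ^ (2 ^ p.1 + 2 ^ p.2)) := by
  rintro ⟨n, f, hf, hn⟩
  exact hn (Pool.Agent.Lib.MP_d2e2bc_co.isDO_of_planar (F := GaloisField 2 n) hf)

end Pool.Agent.S11642
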