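import Pool.Statements.S11883
import Pool.Agent.Lib.MP_dd58da_co.Strip

set_option autoImplicit false
open Pool Pool.MP_dd58da_co

namespace Pool.Agent.S11883

/-- For every ε>0, for all large n, every set of n points in the unit square contains three distinct points lying in a strip (points within ε/n of some line) of width 2ε/n; i.e., the thinnest 3-point strip has width o(1/n). -/
theorem result :
    ∀ ε : ℝ, 0 < ε → ∃ N : ℕ, ∀ n : ℕ, N ≤ n →
      ∀ P : Finset (ℝ × ℝ), P.card = n →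
        (∀ p ∈ P, 0 ≤ p.1 ∧ p.1 ≤ 1 ∧ 0 ≤ p.2 ∧ p.2 ≤ 1) →
        ∃ a ∈ P, ∃ b ∈ P, ∃ c ∈ P, a ≠ b ∧ a ≠ c ∧ b ≠ c ∧
          ∃ u v t : ℝ, u ^ 2 + v ^ 2 = 1 ∧
            |u * a.1 + v * a.2 - t| ≤ ε / (n : ℝ) ∧
            |u * b.1 + v * b.2 - t| ≤ ε / (n : ℝ) ∧
            |u * c.1 + v * c.2 - t| ≤ ε / (n : ℝ) := by
  exact Pool.Agent.Lib.MP_dd58da_co.thin_strip

end Pool.Agent.S11883
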