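import Pool.Statements.S12678
import Pool.Agent.Lib.MP_034e58_gt.Main

set_option autoImplicit false
open Pool Pool.MP_034e58_gt

namespace Pool.Agent.S12678

/-- The negation of the preceding statement: In every connected, separable, Hausdorff space locally homeomorphic to Euclidean n-space, each nonempty open set is homeomorphic to some open set that is dense in the whole space. -/
theorem result :
    ¬ (∀ (n : ℕ) (M : Type) [TopologicalSpace M]
      [ChartedSpace (EuclideanSpace ℝ (Fin n)) M]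
      [T2Space M] [ConnectedSpace M] [TopologicalSpace.SeparableSpace M],
      ∀ U : Set M, IsOpen U → U.Nonempty →
        ∃ V : Set M, IsOpen V ∧ Dense V ∧ Nonempty (U ≃ₜ V)) := by
  intro h
  obtain ⟨S, hG, hsm⟩ := Pool.Agent.Lib.MP_034e58_gt.exists_scale
  have hS : ∀ g ∈ S, Continuous g := fun g hg => (hG.1 g hg).1
  obtain ⟨g, hg, -⟩ := hG.2.2 (fun n => n) (fun n => n) tendsto_natCast_atTop_atTop
  let _ := Pool.Agent.Lib.MP_034e58_gt.chartedM hS
  have := Pool.Agent.Lib.MP_034e58_gt.t2_M hS hG.2.1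
  have := Pool.Agent.Lib.MP_034e58_gt.connected_M (S := S) ⟨g, hg⟩
  have := Pool.Agent.Lib.MP_034e58_gt.separable_M (S := S)
  obtain ⟨V, hV, hVd, ⟨f⟩⟩ := h 2 (Pool.Agent.Lib.MP_034e58_gt.M S)
    (Pool.Agent.Lib.MP_034e58_gt.UU S) (Pool.Agent.Lib.MP_034e58_gt.isOpen_UU hS)
    ⟨_, Pool.Agent.Lib.MP_034e58_gt.lim_mem_UU ⟨g, hg⟩ 0⟩
  exact Pool.Agent.Lib.MP_034e58_gt.no_dense_copy hG hsm V hV hVd f

end Pool.Agent.S12678
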