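import Pool.Statements.S13367
import Pool.Agent.Lib.MP_70b2ae_gt.BgGeo

set_option autoImplicit false
open Pool Pool.MP_70b2ae_gt

namespace Pool.Agent.S13367

/-- For any convex body C in d-space (d ≥ 2) and any m hyperplanes, some closed piece of C cut out by choosing a side of each hyperplane contains a translate of C scaled by 1/(m+1). -/
theorem result :
    ∀ d : ℕ, 2 ≤ d →
    ∀ C : Set (EuclideanSpace ℝ (Fin d)),
      IsCompact C → Convex ℝ C → (interior C).Nonempty →
    ∀ m : ℕ, ∀ a : Fin m → EuclideanSpace ℝ (Fin d), ∀ b : Fin m → ℝ,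
      (∀ i, a i ≠ 0) →
      ∃ σ : Fin m → Bool, ∃ t : EuclideanSpace ℝ (Fin d),
        ∀ x ∈ C,
          t + (1 / ((m : ℝ) + 1)) • x ∈ C ∧
          ∀ i : Fin m,
            (σ i = true → inner ℝ (a i) (t + (1 / ((m : ℝ) + 1)) • x) ≤ b i) ∧
            (σ i = false → b i ≤ inner ℝ (a i) (t + (1 / ((m : ℝ) + 1)) • x)) := by
  exact Pool.Agent.Lib.MP_70b2ae_gt.Bg.slice

end Pool.Agent.S13367
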