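import Pool.Statements.S13443
import Pool.Agent.Lib.MP_7dd29b_gt.RedFrozen
import Pool.Agent.Lib.MP_7dd29b_gt.Core

set_option autoImplicit false
open Matrix
open Pool Pool.MP_7dd29b_gt

namespace Pool.Agent.S13443

/-- For n ≥ 3, if F on ℝⁿ is smooth off 0, positive off 0, positively 1-homogeneous, with positive definite Hessian of F²/2 off 0, and that Hessian metric has vanishing curvature off 0, then F(x) = √(xᵀAx) for some positive definite A. -/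
theorem result :
  ∀ (n : ℕ), 3 ≤ n → ∀ F : (Fin n → ℝ) → ℝ,
    ContDiffOn ℝ ((⊤ : ℕ∞) : WithTop ℕ∞) F {x | x ≠ 0} →
    (∀ x : Fin n → ℝ, x ≠ 0 → 0 < F x) →
    (∀ (t : ℝ) (x : Fin n → ℝ), 0 ≤ t → F (t • x) = t * F x) →
    (∀ x : Fin n → ℝ, x ≠ 0 →
      (Matrix.of fun i j : Fin n =>
        iteratedFDeriv ℝ 2 (fun y : Fin n → ℝ => F y ^ 2 / 2) x
          ![(Pi.single i (1 : ℝ) : Fin n → ℝ), (Pi.single j (1 : ℝ) : Fin n → ℝ)]).PosDef) →
    (∀ x : Fin n → ℝ, x ≠ 0 → ∀ i j k l : Fin n,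
      ∑ p : Fin n, ∑ q : Fin n,
        (Matrix.of fun a b : Fin n =>
          iteratedFDeriv ℝ 2 (fun y : Fin n → ℝ => F y ^ 2 / 2) x
            ![(Pi.single a (1 : ℝ) : Fin n → ℝ), (Pi.single b (1 : ℝ) : Fin n → ℝ)])⁻¹ p q *
        (iteratedFDeriv ℝ 3 (fun y : Fin n → ℝ => F y ^ 2 / 2) x
            ![(Pi.single i (1 : ℝ) : Fin n → ℝ), (Pi.single k (1 : ℝ) : Fin n → ℝ),
              (Pi.single p (1 : ℝ) : Fin n → ℝ)] *
          iteratedFDeriv ℝ 3 (fun y : Fin n → ℝ => F y ^ 2 / 2) x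
            ![(Pi.single j (1 : ℝ) : Fin n → ℝ), (Pi.single l (1 : ℝ) : Fin n → ℝ),
              (Pi.single q (1 : ℝ) : Fin n → ℝ)] -
         iteratedFDeriv ℝ 3 (fun y : Fin n → ℝ => F y ^ 2 / 2) x
            ![(Pi.single i (1 : ℝ) : Fin n → ℝ), (Pi.single l (1 : ℝ) : Fin n → ℝ),
              (Pi.single p (1 : ℝ) : Fin n → ℝ)] *
          iteratedFDeriv ℝ 3 (fun y : Fin n → ℝ => F y ^ 2 / 2) x
            ![(Pi.single j (1 : ℝ) : Fin n → ℝ), (Pi.single k (1 : ℝ) : Fin n → ℝ),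
              (Pi.single q (1 : ℝ) : Fin n → ℝ)]) = 0) →
    ∃ A : Matrix (Fin n) (Fin n) ℝ, A.PosDef ∧ ∀ x : Fin n → ℝ, F x = Real.sqrt (x ⬝ᵥ A *ᵥ x) := by
  intro n hn
  exact Pool.Agent.Lib.MP_7dd29b_gt.statement_of_core n hn
    (Pool.Agent.Lib.MP_7dd29b_gt.core (by simpa using hn))

end Pool.Agent.S13443
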