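import Pool.Statements.S13842
import Pool.Agent.Lib.MP_bdd006_gt.Homeo

set_option autoImplicit false
open Pool Pool.MP_bdd006_gt

namespace Pool.Agent.S13842

/-- The negation of the preceding statement: For Tychonoff spaces X, Y: if the spaces of continuous real functions with the pointwise topology, C_p(X) and C_p(Y), are homeomorphic, and Y embeds in a compact Hausdorff space as a countable intersection of σ-compact sets, then so does X. -/
theorem result :
    ¬ (∀ (X Y : Type) [TopologicalSpace X] [TopologicalSpace Y] [T35Space X] [T35Space Y],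
      Nonempty ({f : X → ℝ // Continuous f} ≃ₜ {g : Y → ℝ // Continuous g}) →
      (∃ (K : Type) (_ : TopologicalSpace K) (_ : CompactSpace K) (_ : T2Space K) (e : Y → K),
        Topology.IsEmbedding e ∧
        ∃ C : ℕ → ℕ → Set K, (∀ n m, IsCompact (C n m)) ∧ Set.range e = ⋂ n, ⋃ m, C n m) →
      (∃ (K : Type) (_ : TopologicalSpace K) (_ : CompactSpace K) (_ : T2Space K) (e : X → K),
        Topology.IsEmbedding e ∧
        ∃ C : ℕ → ℕ → Set K, (∀ n m, IsCompact (C n m)) ∧ Set.range e = ⋂ n, ⋃ m, C n m)) := by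
  intro h
  exact Pool.Agent.Lib.MP_bdd006_gt.X_not_ksd
    (h Pool.Agent.Lib.MP_bdd006_gt.X Pool.Agent.Lib.MP_bdd006_gt.Y
      ⟨Pool.Agent.Lib.MP_bdd006_gt.homeoXY⟩ Pool.Agent.Lib.MP_bdd006_gt.Y_ksd)

end Pool.Agent.S13842
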