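import Pool.Statements.S14402
import Pool.Agent.Lib.MP_141b7f_lc.BaireSol
import Pool.Agent.Lib.MP_141b7f_lc.NoMeas
import Pool.Agent.Lib.MP_141b7f_lc.Circle

set_option autoImplicit false
open Pool Pool.MP_141b7f_lc

namespace Pool.Agent.S14402

open Pool.Agent.Lib.MP_141b7f_lc

/-- The negation of the preceding statement: For every n ≥ 2, each LCL on ℤⁿ with a Borel solution on an invariant comeager set for every free Borel ℤⁿ-action on a Polish space also has one on an invariant conull set for every Borel probability measure. -/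
theorem result :
    ¬ (∀ n : ℕ, 2 ≤ n → ∀ (k t : ℕ) (P : Set ({g : Fin n → ℤ // ∀ i, |g i| ≤ (t : ℤ)} → Fin k)),
      (∀ (X : Type) [TopologicalSpace X] [PolishSpace X] [MeasurableSpace X] [BorelSpace X]
        (a : (Fin n → ℤ) → X → X),
        (∀ x, a 0 x = x) → (∀ g h x, a (g + h) x = a g (a h x)) →
        (∀ g, Measurable (a g)) → (∀ g x, a g x = x → g = 0) →
        ∃ (c : X → Fin k) (C : Set X), Measurable c ∧ MeasurableSet C ∧
          (∀ g x, x ∈ C → a g x ∈ C) ∧ C ∈ residual X ∧
          ∀ x ∈ C, (fun g : {g : Fin n → ℤ // ∀ i, |g i| ≤ (t : ℤ)} => c (a g.1 x)) ∈ P) →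
      (∀ (X : Type) [TopologicalSpace X] [PolishSpace X] [MeasurableSpace X] [BorelSpace X]
        (a : (Fin n → ℤ) → X → X),
        (∀ x, a 0 x = x) → (∀ g h x, a (g + h) x = a g (a h x)) →
        (∀ g, Measurable (a g)) → (∀ g x, a g x = x → g = 0) →
        ∀ (μ : MeasureTheory.Measure X), MeasureTheory.IsProbabilityMeasure μ →
        ∃ (c : X → Fin k) (C : Set X), Measurable c ∧ MeasurableSet C ∧
          (∀ g x, x ∈ C → a g x ∈ C) ∧ μ Cᶜ = 0 ∧
          ∀ x ∈ C, (fun g : {g : Fin n → ℤ // ∀ i, |g i| ≤ (t : ℤ)} => c (a g.1 x)) ∈ P)) := by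
  classical
  intro hmain
  have : Finite {r : Raw // Bd r} := finite_bd.to_subtype
  obtain ⟨k, ⟨e⟩⟩ := Finite.exists_equiv_fin {r : Raw // Bd r}
  have hd : Bd default := by
    refine ⟨?_, ?_, ?_, ?_, ?_, ?_⟩ <;> decide
  let dec : Fin k → Raw := fun i => (e.symm i).1
  let enc : Raw → Fin k := fun r => if h : Bd r then e ⟨r, h⟩ else e ⟨default, hd⟩
  have hde : ∀ r, Bd r → dec (enc r) = r := by
    intro r hr
    simp [dec, enc, hr]
  let z0 : {g : Fin 2 → ℤ // ∀ i, |g i| ≤ ((1 : ℕ) : ℤ)} := ⟨0, by simp⟩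
  let z1 : {g : Fin 2 → ℤ // ∀ i, |g i| ≤ ((1 : ℕ) : ℤ)} := ⟨![1, 0], by decide⟩
  let z2 : {g : Fin 2 → ℤ // ∀ i, |g i| ≤ ((1 : ℕ) : ℤ)} := ⟨![0, 1], by decide⟩
  obtain ⟨τ, hτ⟩ := exists_indep
  have hprob : MeasureTheory.IsProbabilityMeasure (MeasureTheory.volume : MeasureTheory.Measure UnitAddCircle) :=
    ⟨by simp [AddCircle.measure_univ]⟩
  let rot : (Fin 2 → ℤ) → UnitAddCircle → UnitAddCircle := fun g x =>
    ((g 0 * τ + g 1 * τ ^ 2 : ℝ) : UnitAddCircle) + x
  have hrotadd : ∀ g h x, rot (g + h) x = rot g (rot h x) := by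
    intro g h x
    simp only [rot, Pi.add_apply]
    rw [← add_assoc, ← AddCircle.coe_add]
    congr 2
    push_cast
    ring
  obtain ⟨c, C, hc, -, hinv, hC, hP⟩ := hmain 2 le_rfl k 1
    {p | Rule (dec (p z0)) (dec (p z1)) (dec (p z2))}
    (by
      intro X _ _ _ _ a h0 hadd hmeas hfree
      obtain ⟨f, C, hf, hCm, hinv, hres, hrule⟩ := baire_solution (fun v : V => a ![v.1, v.2])
        (fun x => by
          have : (![(0 : V).1, (0 : V).2] : Fin 2 → ℤ) = 0 := by decide
          simp only [this, h0])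
        (fun g h x => by
          rw [← hadd]
          congr 1
          ext i
          fin_cases i <;> simp)
        (fun g => hmeas _)
        (fun g x h => by
          have h1 := hfree _ x h
          exact Prod.ext (congrFun h1 0) (congrFun h1 1))
      refine ⟨fun x => enc (f x), C, fun s _ => (hf.comp enc).set s, hCm, ?_, hres, ?_⟩
      · intro g x hx
        have h1 := hinv (g 0, g 1) x hx
        have h2 : (![g 0, g 1] : Fin 2 → ℤ) = g := by
          ext i
          fin_cases i <;> rfl
        simpa only [h2] using h1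
      · intro x hx
        have r0 := hrule x hx
        have r1 := (hrule _ (hinv e1 x hx)).bd
        have r2 := (hrule _ (hinv e2 x hx)).bd
        simp only [Set.mem_ofPred_eq, z0, z1, z2, h0]
        rw [hde _ r0.bd, hde _ r1, hde _ r2]
        exact r0)
    UnitAddCircle rot (fun x => by simp [rot]) hrotadd
    (fun g => measurable_const_add _)
    (fun g x h => by
      have h1 := hτ (g 0) (g 1) (add_eq_right.mp h)
      ext i
      fin_cases i
      · exact h1.1
      · exact h1.2)
    MeasureTheory.volume hprob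
  refine no_measurable_solution (μ := MeasureTheory.volume) (rot ![1, 0]) (rot ![0, 1])
    (MeasureTheory.measurePreserving_add_left _ _) (MeasureTheory.measurePreserving_add_left _ _)
    (fun x => by rw [← hrotadd, ← hrotadd, add_comm]) ?_ (fun x => dec (c x))
    (fun s _ => hc (MeasurableSet.of_discrete (s := dec ⁻¹' s))) C hC
    (fun x hx => hinv _ x hx) (fun x hx => hinv _ x hx) ?_
  · have h1 : rot ![1, 0] ∘ rot ![1, 0] = fun x => ((2 * τ : ℝ) : UnitAddCircle) + x := by
      funext x
      simp only [Function.comp, ← hrotadd]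
      simp only [rot]
      congr 2
      simp
    rw [h1, AddCircle.ergodic_add_left, addOrderOf_eq_zero_iff']
    intro n hn h
    have h2 := (hτ (2 * n) 0 (by
      rw [← h, ← AddCircle.coe_nsmul]
      congr 1
      push_cast
      rw [nsmul_eq_mul]
      ring)).1
    omega
  · intro x hx
    have h1 := hP x hx
    simp only [Set.mem_ofPred_eq, z0, z1, z2] at h1
    have h2 : rot 0 x = x := by simp [rot]
    rw [h2] at h1
    exact h1

end Pool.Agent.S14402
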