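import Pool.Statements.S15167
import Pool.Agent.Lib.MP_a5f47e_lc.Embed

set_option autoImplicit false
open Pool Pool.MP_a5f47e_lc

namespace Pool.Agent.S15167

/-- There is a non-archimedean abelian Polish group U, all of whose continuous actions on Polish spaces have Borel orbit relations, such that every non-archimedean abelian Polish group with the same property embeds into U as a topological group. -/
theorem result :
    ∃ (U : Type) (_ : CommGroup U) (_ : TopologicalSpace U) (_ : NonarchimedeanGroup U)
      (_ : PolishSpace U),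
      (∀ (X : Type) [TopologicalSpace X] [PolishSpace X] [MulAction U X] [ContinuousSMul U X],
        @MeasurableSet (X × X) (borel (X × X)) {p : X × X | ∃ g : U, g • p.1 = p.2}) ∧
      ∀ (G : Type) [CommGroup G] [TopologicalSpace G] [NonarchimedeanGroup G] [PolishSpace G],
        (∀ (X : Type) [TopologicalSpace X] [PolishSpace X] [MulAction G X] [ContinuousSMul G X],
          @MeasurableSet (X × X) (borel (X × X)) {p : X × X | ∃ g : G, g • p.1 = p.2}) →
        ∃ f : G →* U, Topology.IsEmbedding (f : G → U) := by
  have hna : NonarchimedeanGroup (Multiplicative Pool.Agent.Lib.MP_a5f47e_lc.UU) :=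
    { is_nonarchimedean := fun s hs => by
        obtain ⟨V, h1, h2⟩ := Pool.Agent.Lib.MP_a5f47e_lc.UU_na s hs
        exact ⟨⟨AddSubgroup.toSubgroup V, h1⟩, h2⟩ }
  have hpol : PolishSpace Pool.Agent.Lib.MP_a5f47e_lc.UU := ⟨⟩
  refine ⟨Multiplicative Pool.Agent.Lib.MP_a5f47e_lc.UU, inferInstance, inferInstance, hna, hpol,
    ?_, ?_⟩
  · intro X _ _ _ _
    exact Pool.Agent.Lib.MP_a5f47e_lc.UU_tame X (fun g x => Multiplicative.ofAdd g • x)
      (fun x => one_smul _ x) (fun g h x => mul_smul (Multiplicative.ofAdd g) _ x)
      (continuous_smul (M := Multiplicative Pool.Agent.Lib.MP_a5f47e_lc.UU))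
  · intro G _ _ _ hP hG
    have hP' : PolishSpace (Additive G) := hP
    have hT : Pool.Agent.Lib.MP_a5f47e_lc.Tame (Additive G) := by
      intro X _ _ act h0 hadd hcont
      let _ : MulAction G X :=
        { smul := fun g x => act (Additive.ofMul g) x
          one_smul := h0
          mul_smul := fun g h x => hadd (Additive.ofMul g) (Additive.ofMul h) x }
      have : ContinuousSMul G X := ⟨hcont⟩
      exact hG X
    obtain ⟨f, hf⟩ := Pool.Agent.Lib.MP_a5f47e_lc.exists_embedding (G := Additive G)
      (fun s hs => by
        obtain ⟨V, hV⟩ := NonarchimedeanGroup.is_nonarchimedean (G := G) s hs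
        exact ⟨Subgroup.toAddSubgroup V.toSubgroup, V.isOpen, hV⟩) hT
    exact ⟨AddMonoidHom.toMultiplicativeRight f, hf⟩

end Pool.Agent.S15167
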