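import Pool.Statements.S15180
import Pool.Agent.Lib.MP_a7c6c3_lc.Main

set_option autoImplicit false
open Pool Pool.MP_a7c6c3_lc

namespace Pool.Agent.S15180

/-- The negation of the preceding statement: For each k and optimal plain-complexity machine there is c such that any k strings of length ≤ n have companions a' whose complexity on every nonempty sub-tuple is half that of the originals, within c·log(n+2). -/
theorem result :
    ¬ (∀ k : ℕ, ∀ U : List Bool →. List (List Bool), Partrec U →
      (∀ φ : List Bool →. List (List Bool), Partrec φ →
        ∃ c : ℕ, ∀ (p : List Bool) (x : List (List Bool)), x ∈ φ p →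
          ∃ q : List Bool, x ∈ U q ∧ q.length ≤ p.length + c) →
      ∃ c : ℝ, ∀ n : ℕ, ∀ a : Fin k → List Bool, (∀ i, (a i).length ≤ n) →
        ∃ a' : Fin k → List Bool, ∀ S : Finset (Fin k), S.Nonempty →
          |((sInf {m : ℕ | ∃ q : List Bool,
                ((List.finRange k).filter (fun i => decide (i ∈ S))).map a' ∈ U q ∧
                  q.length = m} : ℕ) : ℝ)
            - ((sInf {m : ℕ | ∃ q : List Bool,
                ((List.finRange k).filter (fun i => decide (i ∈ S))).map a ∈ U q ∧
                  q.length = m} : ℕ) : ℝ) / 2|
            ≤ c * Real.log ((n : ℝ) + 2)) := by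
  intro h
  exact Pool.Agent.Lib.MP_a7c6c3_lc.not_halving fun k U hU => h k U hU.1 hU.2

end Pool.Agent.S15180
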