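import Pool.Statements.S15235
import Pool.Agent.Lib.MP_b0cc33_lc.Limit

set_option autoImplicit false
open Pool Pool.MP_b0cc33_lc

namespace Pool.Agent.S15235

/-- Every finitely generated group F_n/N whose non-identity words form a c.e. set embeds, as a group of isometries each computable on a dense sequence, into some complete metric space with a dense sequence having computable distances. -/
theorem result :
    ∀ (n : ℕ) (N : Subgroup (FreeGroup (Fin n))), N.Normal →
      REPred (fun w : List (Fin n × Bool) => FreeGroup.mk w ∉ N) →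
      ∃ (X : Type) (_ : MetricSpace X) (_ : CompleteSpace X) (s : ℕ → X),
        DenseRange s ∧
        (∃ q : ℕ × ℕ × ℕ → ℕ, Computable q ∧
          ∀ i j k : ℕ, |dist (s i) (s j) - (q (i, j, k) : ℝ) / 2 ^ k| ≤ 1 / 2 ^ k) ∧
        ∃ φ : FreeGroup (Fin n) →* (X ≃ᵢ X), φ.ker = N ∧
          ∀ g : FreeGroup (Fin n), ∃ h : ℕ × ℕ → ℕ, Computable h ∧
            ∀ i k : ℕ, dist (φ g (s i)) (s (h (i, k))) ≤ 1 / 2 ^ k := by
  intro n N hN hre
  obtain ⟨l, m, hm, hmul, hinv, hzero, happ⟩ := Lib.MP_b0cc33_lc.exists_real_len N hre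
  letI : PseudoMetricSpace (FreeGroup (Fin n)) :=
    { dist := fun g h => l (g⁻¹ * h)
      dist_self := fun g => (hzero _).2 (by simp)
      dist_comm := fun g h => by rw [← hinv]; simp
      dist_triangle := fun g h k => by
        have := hmul (g⁻¹ * h) (h⁻¹ * k)
        simpa [mul_assoc] using this }
  have hdist : ∀ g h : FreeGroup (Fin n), dist g h = l (g⁻¹ * h) := fun _ _ => rfl
  have hiso : ∀ g : FreeGroup (Fin n), Isometry (fun h => g * h) := fun g =>
    Isometry.of_dist_eq (fun a b => by rw [hdist, hdist]; simp [mul_assoc])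
  let X := UniformSpace.Completion (FreeGroup (Fin n))
  let T : FreeGroup (Fin n) → X → X := fun g => UniformSpace.Completion.map (fun h => g * h)
  have hT : ∀ g h : FreeGroup (Fin n), T g (h : X) = ((g * h : FreeGroup (Fin n)) : X) :=
    fun g h => UniformSpace.Completion.map_coe (hiso g).uniformContinuous h
  have hTc : ∀ g, Continuous (T g) := fun g => UniformSpace.Completion.continuous_map
  have hTmul : ∀ g h x, T (g * h) x = T g (T h x) := by
    intro g h x
    refine UniformSpace.Completion.induction_on x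
      (isClosed_eq (hTc _) ((hTc _).comp (hTc _))) (fun a => ?_)
    rw [hT, hT, hT, mul_assoc]
  have hTN : ∀ g ∈ N, ∀ x, T g x = x := by
    intro g hg x
    refine UniformSpace.Completion.induction_on x (isClosed_eq (hTc _) continuous_id) (fun a => ?_)
    rw [hT]
    refine eq_of_dist_eq_zero ?_
    rw [UniformSpace.Completion.dist_eq, hdist, hzero]
    have := hN.conj_mem _ (N.inv_mem hg) a⁻¹
    simpa [mul_assoc] using this
  let φ : FreeGroup (Fin n) →* (X ≃ᵢ X) :=
    { toFun := fun g =>
        { toFun := T g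
          invFun := T g⁻¹
          left_inv := fun x => by rw [← hTmul, inv_mul_cancel, hTN 1 N.one_mem]
          right_inv := fun x => by rw [← hTmul, mul_inv_cancel, hTN 1 N.one_mem]
          isometry_toFun := (hiso g).completion_map }
      map_one' := IsometryEquiv.ext (fun x => hTN 1 N.one_mem x)
      map_mul' := fun g h => IsometryEquiv.ext (fun x => hTmul g h x) }
  have hφ : ∀ g x, φ g x = T g x := fun _ _ => rfl
  let s : ℕ → X := fun i => ((FreeGroup.mk (Lib.MP_b0cc33_lc.wd n i) : FreeGroup (Fin n)) : X)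
  refine ⟨X, inferInstance, inferInstance, s, ?_, ?_, φ, ?_, ?_⟩
  · refine UniformSpace.Completion.denseRange_coe.comp (Function.Surjective.denseRange ?_)
      (UniformSpace.Completion.continuous_coe _)
    intro g
    exact ⟨Encodable.encode g.toWord, by simp [FreeGroup.mk_toWord]⟩
  · let t : ℕ × ℕ × ℕ → ℕ := fun a => Nat.pair (Encodable.encode
      (FreeGroup.invRev (Lib.MP_b0cc33_lc.wd n a.1) ++ Lib.MP_b0cc33_lc.wd n a.2.1)) a.2.2
    have ht : Primrec t :=
      Primrec₂.natPair.comp (Primrec.encode.comp (Primrec.list_append.comp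
        (Lib.MP_b0cc33_lc.primrec_invRev.comp (Lib.MP_b0cc33_lc.primrec_wd.comp Primrec.fst))
        (Lib.MP_b0cc33_lc.primrec_wd.comp (Primrec.fst.comp Primrec.snd))))
        (Primrec.snd.comp Primrec.snd)
    have hpow : Primrec₂ (fun a b : ℕ => a ^ b) := Primrec₂.unpaired'.1 Nat.Primrec.pow
    refine ⟨fun a => m (t a) / 2 ^ (t a + 1 - a.2.2), ?_, fun i j k => ?_⟩
    · exact Primrec.nat_div.to_comp.comp (hm.comp ht.to_comp)
        (hpow.comp (Primrec.const 2) (Primrec.nat_sub.comp (Primrec.succ.comp ht)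
          (Primrec.snd.comp Primrec.snd))).to_comp
    · have h1 := happ (t (i, j, k))
      have h2 : FreeGroup.mk (Lib.MP_b0cc33_lc.wd n (t (i, j, k)).unpair.1) =
          (FreeGroup.mk (Lib.MP_b0cc33_lc.wd n i))⁻¹ * FreeGroup.mk (Lib.MP_b0cc33_lc.wd n j) := by
        simp [t]
      rw [h2] at h1
      have h3 : dist (s i) (s j) = l ((FreeGroup.mk (Lib.MP_b0cc33_lc.wd n i))⁻¹ *
          FreeGroup.mk (Lib.MP_b0cc33_lc.wd n j)) := UniformSpace.Completion.dist_eq _ _
      rw [h3]
      exact Lib.MP_b0cc33_lc.approx_div ((Nat.right_le_pair _ _).trans (Nat.le_succ _)) h1.1 h1.2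
  · ext g
    rw [MonoidHom.mem_ker]
    constructor
    · intro h
      have h1 : T g ((1 : FreeGroup (Fin n)) : X) = ((1 : FreeGroup (Fin n)) : X) := by
        rw [← hφ, h]; rfl
      rw [hT, mul_one] at h1
      have h2 : dist ((1 : FreeGroup (Fin n)) : X) (g : X) = 0 := by rw [h1, dist_self]
      rw [UniformSpace.Completion.dist_eq, hdist, hzero] at h2
      simpa using h2
    · intro hg
      exact IsometryEquiv.ext (fun x => hTN g hg x)
  · intro g
    refine ⟨fun a => Encodable.encode (g.toWord ++ Lib.MP_b0cc33_lc.wd n a.1), ?_, fun i k => ?_⟩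
    · exact (Primrec.encode.comp (Primrec.list_append.comp (Primrec.const _)
        (Lib.MP_b0cc33_lc.primrec_wd.comp Primrec.fst))).to_comp
    · have h1 : φ g (s i) = s (Encodable.encode (g.toWord ++ Lib.MP_b0cc33_lc.wd n i)) := by
        rw [hφ]
        simp only [s]
        rw [hT, Lib.MP_b0cc33_lc.wd_encode, ← FreeGroup.mul_mk, FreeGroup.mk_toWord]
      rw [h1, dist_self]
      positivity

end Pool.Agent.S15235
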