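import Pool.Statements.S15399
import Pool.Agent.Lib.MP_d338c6_lc.Transfer

set_option autoImplicit false
open Pool Pool.MP_d338c6_lc

namespace Pool.Agent.S15399

/-- In GLP, for every formula φ in variables p₀…p_{n−1}: if some substitution σ makes ⊢σψ equivalent to φ⊢ψ for all ψ (exact), then some σ has ⊢σφ and φ⊢pᵢ↔σpᵢ for all i (projective). -/
theorem result :
  ∀ (L : FirstOrder.Language.{0, 0}) (c0 : L.Functions 0) (cimp : L.Functions 2)
    (cbox : ℕ → L.Functions 1),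
    (∀ f : L.Functions 0, f = c0) →
    (∀ f : L.Functions 2, f = cimp) →
    Function.Bijective cbox →
    (∀ n : ℕ, 3 ≤ n → IsEmpty (L.Functions n)) →
    ∀ (bot : L.Term ℕ) (imp : L.Term ℕ → L.Term ℕ → L.Term ℕ) (box : ℕ → L.Term ℕ → L.Term ℕ),
    bot = FirstOrder.Language.Term.func c0 ![] →
    (∀ a b : L.Term ℕ, imp a b = FirstOrder.Language.Term.func cimp ![a, b]) →
    (∀ (k : ℕ) (a : L.Term ℕ), box k a = FirstOrder.Language.Term.func (cbox k) ![a]) →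
    ∀ Der : Set (L.Term ℕ) → L.Term ℕ → Prop,
    (∀ (Γ : Set (L.Term ℕ)) (ψ : L.Term ℕ),
      Der Γ ψ ↔
        ∀ S : Set (L.Term ℕ),
          Γ ⊆ S →
          (∀ a b, imp a (imp b a) ∈ S) →
          (∀ a b c, imp (imp a (imp b c)) (imp (imp a b) (imp a c)) ∈ S) →
          (∀ a, imp (imp (imp a bot) bot) a ∈ S) →
          (∀ (k : ℕ) a b, imp (box k (imp a b)) (imp (box k a) (box k b)) ∈ S) →
          (∀ (k : ℕ) a, imp (box k (imp (box k a) a)) (box k a) ∈ S) →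
          (∀ (m k : ℕ) a, m ≤ k → imp (box m a) (box k a) ∈ S) →
          (∀ (m k : ℕ) a, m < k →
            imp (imp (box m (imp a bot)) bot) (box k (imp (box m (imp a bot)) bot)) ∈ S) →
          (∀ a b, a ∈ S → imp a b ∈ S → b ∈ S) →
          (∀ (k : ℕ) a, a ∈ S → box k a ∈ S) →
          ψ ∈ S) →
    ∀ (n : ℕ) (φ : L.Term (Fin n)),
      (∃ σ : Fin n → L.Term ℕ,
        ∀ ψ : L.Term (Fin n),
          Der ∅ (ψ.subst σ) ↔ Der {φ.relabel Fin.val} (ψ.relabel Fin.val)) →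
      ∃ σ : Fin n → L.Term ℕ,
        Der ∅ (φ.subst σ) ∧
        ∀ i : Fin n,
          Der {φ.relabel Fin.val}
            (imp (FirstOrder.Language.Term.var i.val : L.Term ℕ) (σ i)) ∧
          Der {φ.relabel Fin.val}
            (imp (σ i) (FirstOrder.Language.Term.var i.val : L.Term ℕ)) := by
  intro L c0 cimp cbox h0 h2 hbij h3 bot imp box hbot himp hbox Der hDer n φ hex
  classical
  obtain ⟨lev, hlev1, hlev2⟩ := Function.bijective_iff_has_inverse.1 hbij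
  have hto : ∀ {α : Type} (t : L.Term α), Lib.MP_d338c6_lc.toT c0 cimp cbox
      (Lib.MP_d338c6_lc.ofT lev t) = t :=
    fun t => Lib.MP_d338c6_lc.toT_ofT c0 cimp cbox h0 h2 h3 lev hlev2 t
  have hof : ∀ {α : Type} (a : Lib.MP_d338c6_lc.Fm α), Lib.MP_d338c6_lc.ofT lev
      (Lib.MP_d338c6_lc.toT c0 cimp cbox a) = a :=
    fun a => Lib.MP_d338c6_lc.ofT_toT c0 cimp cbox lev hlev1 a
  have obot : Lib.MP_d338c6_lc.ofT lev bot = Lib.MP_d338c6_lc.Fm.bot := by rw [hbot]; rfl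
  have oimp : ∀ a b, Lib.MP_d338c6_lc.ofT lev (imp a b) =
      Lib.MP_d338c6_lc.Fm.imp (Lib.MP_d338c6_lc.ofT lev a) (Lib.MP_d338c6_lc.ofT lev b) := by
    intro a b; rw [himp]; rfl
  have obox : ∀ k a, Lib.MP_d338c6_lc.ofT lev (box k a) =
      Lib.MP_d338c6_lc.Fm.box k (Lib.MP_d338c6_lc.ofT lev a) := by
    intro k a
    rw [hbox]
    change Lib.MP_d338c6_lc.Fm.box (lev (cbox k)) _ = _
    rw [hlev1]
    rfl
  have tbot : Lib.MP_d338c6_lc.toT c0 cimp cbox Lib.MP_d338c6_lc.Fm.bot = bot := by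
    rw [hbot]; rfl
  have timp : ∀ a b, Lib.MP_d338c6_lc.toT c0 cimp cbox (Lib.MP_d338c6_lc.Fm.imp a b) =
      imp (Lib.MP_d338c6_lc.toT c0 cimp cbox a) (Lib.MP_d338c6_lc.toT c0 cimp cbox b) := by
    intro a b; rw [himp]; rfl
  have tbox : ∀ k a, Lib.MP_d338c6_lc.toT c0 cimp cbox (Lib.MP_d338c6_lc.Fm.box k a) =
      box k (Lib.MP_d338c6_lc.toT c0 cimp cbox a) := by
    intro k a; rw [hbox]; rfl
  have key : ∀ (Γ : Set (L.Term ℕ)) (Δ : Lib.MP_d338c6_lc.Fm ℕ → Prop),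
      (∀ a, Δ a ↔ Lib.MP_d338c6_lc.toT c0 cimp cbox a ∈ Γ) → ∀ t : L.Term ℕ,
      Der Γ t ↔ Lib.MP_d338c6_lc.Der Δ (Lib.MP_d338c6_lc.ofT lev t) := by
    intro Γ Δ hΔ t
    rw [hDer]
    constructor
    · intro h
      refine h {t | Lib.MP_d338c6_lc.Der Δ (Lib.MP_d338c6_lc.ofT lev t)} ?_ ?_ ?_ ?_ ?_ ?_ ?_ ?_
        ?_ ?_
      · intro u hu
        exact Lib.MP_d338c6_lc.Der.hyp _ ((hΔ _).2 (by rw [hto]; exact hu))
      · intro a b
        simp only [Set.mem_ofPred_eq, oimp]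
        exact Lib.MP_d338c6_lc.Der.k _ _
      · intro a b c
        simp only [Set.mem_ofPred_eq, oimp]
        exact Lib.MP_d338c6_lc.Der.s _ _ _
      · intro a
        simp only [Set.mem_ofPred_eq, oimp, obot]
        exact Lib.MP_d338c6_lc.Der.dne _
      · intro k a b
        simp only [Set.mem_ofPred_eq, oimp, obox]
        exact Lib.MP_d338c6_lc.Der.dist _ _ _
      · intro k a
        simp only [Set.mem_ofPred_eq, oimp, obox]
        exact Lib.MP_d338c6_lc.Der.loeb _ _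
      · intro m k a hmk
        simp only [Set.mem_ofPred_eq, oimp, obox]
        exact Lib.MP_d338c6_lc.Der.mono _ _ _ hmk
      · intro m k a hmk
        simp only [Set.mem_ofPred_eq, oimp, obox, obot]
        exact Lib.MP_d338c6_lc.Der.dia _ _ _ hmk
      · intro a b ha hab
        simp only [Set.mem_ofPred_eq, oimp] at ha hab ⊢
        exact Lib.MP_d338c6_lc.Der.mp _ _ ha hab
      · intro k a ha
        simp only [Set.mem_ofPred_eq, obox] at ha ⊢
        exact Lib.MP_d338c6_lc.Der.nec _ _ ha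
    · intro h S hΓ a1 a2 a3 a4 a5 a6 a7 a8 a9
      have : ∀ a, Lib.MP_d338c6_lc.Der Δ a → Lib.MP_d338c6_lc.toT c0 cimp cbox a ∈ S := by
        intro a ha
        induction ha with
        | hyp a ha => exact hΓ ((hΔ a).1 ha)
        | k a b => simp only [timp]; exact a1 _ _
        | s a b c => simp only [timp]; exact a2 _ _ _
        | dne a => simp only [timp, tbot]; exact a3 _
        | dist k a b => simp only [timp, tbox]; exact a4 _ _ _
        | loeb k a => simp only [timp, tbox]; exact a5 _ _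
        | mono m k a hmk => simp only [timp, tbox]; exact a6 _ _ _ hmk
        | dia m k a hmk => simp only [timp, tbox, tbot]; exact a7 _ _ _ hmk
        | mp a b _ _ iha ihb => rw [timp] at ihb; exact a8 _ _ iha ihb
        | nec k a _ ih => rw [tbox]; exact a9 _ _ ih
      have h' := this _ h
      rwa [hto] at h'
  let φ' : Lib.MP_d338c6_lc.Fm (Fin n) := Lib.MP_d338c6_lc.ofT lev φ
  let ι : Fin n → Lib.MP_d338c6_lc.Fm ℕ := fun i => Lib.MP_d338c6_lc.Fm.var i.val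
  have key0 : ∀ t : L.Term ℕ, Der ∅ t ↔ Lib.MP_d338c6_lc.Prv (Lib.MP_d338c6_lc.ofT lev t) :=
    key ∅ (fun _ => False) (fun _ => Iff.rfl)
  have key1 : ∀ t : L.Term ℕ, Der {φ.relabel Fin.val} t ↔
      Lib.MP_d338c6_lc.Der (fun a => a = Lib.MP_d338c6_lc.Fm.subst ι φ')
        (Lib.MP_d338c6_lc.ofT lev t) := by
    refine key _ _ (fun a => ?_)
    rw [Set.mem_singleton_iff, ← Lib.MP_d338c6_lc.ofT_relabel]
    constructor
    · intro h; rw [h, hto]
    · intro h; rw [← h, hof]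
  obtain ⟨σ, hσ⟩ := hex
  let ρ : ℕ → Lib.MP_d338c6_lc.Fm (Fin n) := fun i =>
    if h : i < n then Lib.MP_d338c6_lc.Fm.var ⟨i, h⟩ else Lib.MP_d338c6_lc.Fm.bot
  have hρ : ∀ a : Lib.MP_d338c6_lc.Fm (Fin n),
      Lib.MP_d338c6_lc.Fm.subst ρ (Lib.MP_d338c6_lc.Fm.subst ι a) = a := by
    intro a
    rw [Lib.MP_d338c6_lc.Fm.subst_subst]
    have : (fun i => Lib.MP_d338c6_lc.Fm.subst ρ (ι i)) = Lib.MP_d338c6_lc.Fm.var := by
      funext i
      simp [ρ, ι]
    rw [this, Lib.MP_d338c6_lc.Fm.subst_var_self]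
  obtain ⟨τ, hτ1, hτ2⟩ := Lib.MP_d338c6_lc.exact_projective φ'
    (fun i => Lib.MP_d338c6_lc.ofT lev (σ i))
    (by
      rw [← Lib.MP_d338c6_lc.ofT_subst, ← key0, hσ, key1, Lib.MP_d338c6_lc.ofT_relabel]
      exact Lib.MP_d338c6_lc.Der.hyp _ rfl)
    (by
      intro ψ hψ
      rw [← hof ψ, ← Lib.MP_d338c6_lc.ofT_subst, ← key0, hσ, key1,
        Lib.MP_d338c6_lc.ofT_relabel, hof] at hψ
      have := Lib.MP_d338c6_lc.Der.subst_der (Δ := fun a => a = φ') ρ
        (fun a ha => Lib.MP_d338c6_lc.Der.hyp _ (by rw [ha, hρ])) hψ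
      rwa [hρ] at this)
  refine ⟨fun i => Lib.MP_d338c6_lc.toT c0 cimp cbox (Lib.MP_d338c6_lc.Fm.subst ι (τ i)), ?_,
    fun i => ⟨?_, ?_⟩⟩
  · rw [key0, Lib.MP_d338c6_lc.ofT_subst]
    simp only [hof]
    have := hτ1.subst ι
    rwa [Lib.MP_d338c6_lc.Fm.subst_subst] at this
  · rw [key1, oimp, hof]
    exact Lib.MP_d338c6_lc.Der.subst_der ι
      (fun a ha => Lib.MP_d338c6_lc.Der.hyp _ (by rw [ha])) (hτ2 i).1
  · rw [key1, oimp, hof]
    exact Lib.MP_d338c6_lc.Der.subst_der ι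
      (fun a ha => Lib.MP_d338c6_lc.Der.hyp _ (by rw [ha])) (hτ2 i).2

end Pool.Agent.S15399
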