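import Pool.Statements.S16088
import Pool.Agent.Lib.MP_12a475_nt.NegC

set_option autoImplicit false
open Pool Pool.MP_12a475_nt

namespace Pool.Agent.S16088

/-- The negation of the preceding statement: There is C>0 such that for all n, any two distinct complex roots of nonzero polynomials of degree at most n with coefficients in {-1,0,1} are more than C^(-n) apart. -/
theorem result :
    ¬ (∃ C : ℝ, 0 < C ∧
      ∀ n : ℕ, ∀ P₁ P₂ : Polynomial ℤ,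
        P₁ ≠ 0 → P₂ ≠ 0 →
        P₁.natDegree ≤ n → P₂.natDegree ≤ n →
        (∀ i : ℕ, P₁.coeff i ∈ ({-1, 0, 1} : Set ℤ)) →
        (∀ i : ℕ, P₂.coeff i ∈ ({-1, 0, 1} : Set ℤ)) →
        ∀ ξ₁ ξ₂ : ℂ,
          Polynomial.aeval ξ₁ P₁ = 0 → Polynomial.aeval ξ₂ P₂ = 0 →
          ξ₁ ≠ ξ₂ →
          (C ^ n)⁻¹ < ‖ξ₁ - ξ₂‖) := by
  rintro ⟨C, hC, h⟩
  obtain ⟨n, P₁, P₂, h1, h2, d1, d2, c1, c2, ξ₁, ξ₂, r1, r2, hne, hle⟩ :=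
    Pool.Agent.Lib.MP_12a475_nt.Neg.close (⌈C⌉₊) (Nat.ceil_pos.2 hC)
  have h3 := h n P₁ P₂ h1 h2 d1 d2 c1 c2 ξ₁ ξ₂ r1 r2 hne
  have h4 : ((⌈C⌉₊ : ℝ) ^ n)⁻¹ ≤ (C ^ n)⁻¹ :=
    inv_anti₀ (pow_pos hC n) (pow_le_pow_left₀ hC.le (Nat.le_ceil C) n)
  linarith

end Pool.Agent.S16088
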