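import Pool.Statements.S16199
import Pool.Agent.Lib.MP_1b9c20_nt.Main

set_option autoImplicit false
open Pool Pool.MP_1b9c20_nt

namespace Pool.Agent.S16199

/-- For every finite field F_q and all g, Δ in F_q(T) with Δ ≠ 0, the map x ↦ Tx + g x^q + Δ x^(q^2) on F_q(T) has at most q^2 preperiodic points. -/
theorem result :
    ∀ (K : Type) [Field K] [Fintype K] (g Δ : RatFunc K), Δ ≠ 0 →
      {x : RatFunc K | ∃ m n : ℕ, m < n ∧
          (fun y : RatFunc K => RatFunc.X * y + g * y ^ Fintype.card K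
              + Δ * y ^ (Fintype.card K ^ 2))^[m] x
            = (fun y : RatFunc K => RatFunc.X * y + g * y ^ Fintype.card K
              + Δ * y ^ (Fintype.card K ^ 2))^[n] x}.encard
        ≤ ((Fintype.card K ^ 2 : ℕ) : ℕ∞) := by
  intro K _ _ g Δ hΔ
  have e : (fun y : RatFunc K => RatFunc.X * y + g * y ^ Fintype.card K
      + Δ * y ^ (Fintype.card K ^ 2)) = Pool.Agent.Lib.MP_1b9c20_nt.phi g Δ := by
    funext y
    rw [Pool.Agent.Lib.MP_1b9c20_nt.phi, ← pow_mul, sq]
  rw [e]
  exact Pool.Agent.Lib.MP_1b9c20_nt.main hΔ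

end Pool.Agent.S16199
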