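import Pool.Statements.S17064
import Pool.Agent.Lib.MP_5ab464_nt.H84Final

set_option autoImplicit false
open Pool Pool.MP_5ab464_nt

namespace Pool.Agent.S17064

/-- The negation of the preceding statement: If H ⊆ ℕ meets the difference set of every set of positive upper density, then every finite colouring of the primes has two primes p < q of the same colour with q − p in H. -/
theorem result :
    ¬ (∀ H : Set ℕ,
      (∀ A : Set ℕ,
          (∃ c : ℝ, 0 < c ∧ ∀ M : ℕ, ∃ N : ℕ, M ≤ N ∧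
              c * (N : ℝ) ≤ (Nat.card ↑(A ∩ Set.Iio N) : ℝ)) →
          ∃ a ∈ A, ∃ b ∈ A, a < b ∧ b - a ∈ H) →
      ∀ k : ℕ, ∀ col : ℕ → Fin k,
        ∃ p q : ℕ, p.Prime ∧ q.Prime ∧ p < q ∧ col p = col q ∧ q - p ∈ H) := by
  intro h
  obtain ⟨H, h1, k, col, h2⟩ := Pool.Agent.Lib.MP_5ab464_nt.final
  obtain ⟨p, q, hp, hq, hpq, hc, hH⟩ := h H h1 k col
  exact h2 p q hp hq hpq hc hH

end Pool.Agent.S17064
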