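import Pool.Statements.S17963
import Pool.Agent.Lib.MP_a0e7a4_nt.Main

set_option autoImplicit false
open Pool Pool.MP_a0e7a4_nt

namespace Pool.Agent.S17963

/-- There is c > 1/2 such that for every n ≥ 2 and all nonzero reals v_1..v_n, some real t puts every v_i t at distance at least c/n from the nearest integer. -/
theorem result :
    ∃ c : ℝ, 1 / 2 < c ∧
      ∀ n : ℕ, 2 ≤ n → ∀ v : Fin n → ℝ, (∀ i, v i ≠ 0) →
        ∃ t : ℝ, ∀ i, c / (n : ℝ) ≤ |v i * t - (round (v i * t) : ℝ)| := by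
  exact Pool.Agent.Lib.MP_a0e7a4_nt.weak_lonely

end Pool.Agent.S17963
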