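import Pool.Statements.S19143
import Pool.Agent.Lib.MP_0d8a84_pr.Main

set_option autoImplicit false
open MeasureTheory ProbabilityTheory Filter Topology
open Pool Pool.MP_0d8a84_pr

namespace Pool.Agent.S19143

/-- In 3D polluted bootstrap percolation with threshold 3 (occupied prob p, closed prob q), if p,q→0 with log q/log p→α<3, then the probability that the origin is eventually occupied tends to 0. -/
theorem result :
    ∀ α : ℝ, α < 3 → ∀ p q : ℕ → ℝ, (∀ n, 0 < p n) → (∀ n, 0 < q n) →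
      Tendsto p atTop (𝓝 0) → Tendsto q atTop (𝓝 0) →
      Tendsto (fun n => Real.log (q n) / Real.log (p n)) atTop (𝓝 α) →
      ∀ μ : ℕ → Measure (Fin 3), ∀ [∀ n, IsProbabilityMeasure (μ n)],
        (∀ n, μ n {0} = ENNReal.ofReal (p n)) →
        (∀ n, μ n {1} = ENNReal.ofReal (q n)) →
        Tendsto (fun n => Measure.infinitePi (fun _ : ℤ × ℤ × ℤ => μ n)
          {ω : ℤ × ℤ × ℤ → Fin 3 | ((0 : ℤ × ℤ × ℤ)) ∈ ⋂₀ {S : Set (ℤ × ℤ × ℤ) |
            (∀ x, ω x = 0 → x ∈ S) ∧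
            (∀ x, ω x ≠ 1 →
              3 ≤ ({y ∈ S | |x.1 - y.1| + |x.2.1 - y.2.1| + |x.2.2 - y.2.2| = 1}).ncard →
              x ∈ S)}})
          atTop (𝓝 0) := by
  intro α hα p q hp0 hq0 hp hq hpq μ _ h0 h1
  have h := Pool.Agent.Lib.MP_0d8a84_pr.tendsto_density p q hp0 hq0 hp hq
    (Pool.Agent.Lib.MP_0d8a84_pr.tendsto_ratio α hα p q hp0 hq0 hp hpq) μ h0 h1
  refine tendsto_of_tendsto_of_tendsto_of_le_of_le tendsto_const_nhds h
    (fun _ => zero_le) fun n => measure_mono fun ω hω => ?_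
  exact Pool.Agent.Lib.MP_0d8a84_pr.final_subset ω 0 hω

end Pool.Agent.S19143
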