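import Pool.Statements.S19257
import Pool.Agent.Lib.MP_33650d_pr.Y.Final
import Pool.Agent.Lib.MP_33650d_pr.G.Mid
import Pool.Agent.Lib.MP_33650d_pr.G.RootI
import Pool.Agent.Lib.MP_33650d_pr.G.RootK

set_option autoImplicit false
open MeasureTheory ProbabilityTheory
open Pool Pool.MP_33650d_pr

namespace Pool.Agent.S19257

/-- The smallest constant C such that, for all n and all independent mean-zero X_k with positive variance and finite third moment, the normalized sum's CDF is within C·β/σ³ of the standard normal CDF, equals (3+√10)/(6√(2π)). -/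
theorem result :
    IsLeast {C : ℝ | ∀ (n : ℕ) (Ω : Type) [MeasureSpace Ω]
        [IsProbabilityMeasure (volume : Measure Ω)] (X : Fin n → Ω → ℝ),
        0 < n → (∀ k, Measurable (X k)) → iIndepFun X volume →
        (∀ k, MemLp (X k) 3 volume) → (∀ k, ∫ ω, X k ω = 0) →
        (∀ k, 0 < ∫ ω, X k ω ^ 2) →
        ∀ x : ℝ,
          |(volume {ω | (∑ k, X k ω) / Real.sqrt (∑ k, ∫ ω, X k ω ^ 2) ≤ x}).toReal
              - cdf (gaussianReal 0 1) x|
            ≤ C * ((∑ k, ∫ ω, |X k ω| ^ 3) / Real.sqrt (∑ k, ∫ ω, X k ω ^ 2) ^ 3)}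
      ((3 + Real.sqrt 10) / (6 * Real.sqrt (2 * Real.pi))) := by
  exact Pool.Agent.Lib.MP_33650d_pr.Y.final_of_mid
    (Pool.Agent.Lib.MP_33650d_pr.X.mid_of_roots Pool.Agent.Lib.MP_33650d_pr.X.rootI
      Pool.Agent.Lib.MP_33650d_pr.X.rootK)

end Pool.Agent.S19257
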