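import Pool.Statements.S19655
import Pool.Agent.Lib.MP_d20c4f_pr.H53Main
import Pool.Agent.Lib.MP_d20c4f_pr.H53Chi
import Pool.Agent.Lib.MP_d20c4f_pr.H53Chain

set_option autoImplicit false
open Pool Pool.MP_d20c4f_pr

namespace Pool.Agent.S19655

/-- For any degree sequences d1(n) ≤ d2(n) ≤ n−1 with d1·n, d2·n even and (d1,d2) not (1,2) or (n−3,n−2), for large n there is a coupling of uniform random d1- and d2-regular graphs on n vertices with the first contained in the second with probability tending to 1. -/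
theorem result :
    ∀ d₁ d₂ : ℕ → ℕ, ∀ ε : ℝ, 0 < ε → ∃ N : ℕ, ∀ n : ℕ, N ≤ n →
      d₁ n ≤ d₂ n → d₂ n ≤ n - 1 →
      ¬ (d₁ n = 1 ∧ d₂ n = 2) → ¬ (d₁ n = n - 3 ∧ d₂ n = n - 2) →
      Even (d₁ n * n) → Even (d₂ n * n) →
      ∃ μ : PMF (SimpleGraph (Fin n) × SimpleGraph (Fin n)),
        (∀ G H : SimpleGraph (Fin n),
            (∀ v, (G.neighborSet v).ncard = d₁ n) →
            (∀ v, (H.neighborSet v).ncard = d₁ n) →
            μ.map Prod.fst G = μ.map Prod.fst H) ∧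
        (∀ G : SimpleGraph (Fin n),
            ¬ (∀ v, (G.neighborSet v).ncard = d₁ n) → μ.map Prod.fst G = 0) ∧
        (∀ G H : SimpleGraph (Fin n),
            (∀ v, (G.neighborSet v).ncard = d₂ n) →
            (∀ v, (H.neighborSet v).ncard = d₂ n) →
            μ.map Prod.snd G = μ.map Prod.snd H) ∧
        (∀ G : SimpleGraph (Fin n),
            ¬ (∀ v, (G.neighborSet v).ncard = d₂ n) → μ.map Prod.snd G = 0) ∧
        ENNReal.ofReal (1 - ε) ≤ μ.toOuterMeasure {p | p.1 ≤ p.2} := by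
  intro d₁ d₂ ε hε
  obtain ⟨N, hN⟩ := Filter.eventually_atTop.1 (Pool.Agent.Lib.MP_d20c4f_pr.H53.cpl_of_chi
    (Pool.Agent.Lib.MP_d20c4f_pr.H53.chi_of_main Pool.Agent.Lib.MP_d20c4f_pr.H53.main) hε)
  refine ⟨N, fun n hn h2 h3 h4 h5 h6 h7 => ?_⟩
  obtain ⟨μ, m1, m2, m3, m4, m5⟩ := (hN n hn _ _ h2 h3 h4 h5 h6 h7).pmf
  exact ⟨μ, fun G H hG hH => m1 G (Pool.Agent.Lib.MP_d20c4f_pr.mem_RG.2 hG) H
      (Pool.Agent.Lib.MP_d20c4f_pr.mem_RG.2 hH),
    fun G h => m2 G (mt Pool.Agent.Lib.MP_d20c4f_pr.mem_RG.1 h),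
    fun G H hG hH => m3 G (Pool.Agent.Lib.MP_d20c4f_pr.mem_RG.2 hG) H
      (Pool.Agent.Lib.MP_d20c4f_pr.mem_RG.2 hH),
    fun G h => m4 G (mt Pool.Agent.Lib.MP_d20c4f_pr.mem_RG.1 h), m5⟩

end Pool.Agent.S19655
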